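import Mathlib

namespace Pool.Agent.Lib.MP_6e0a1a_co

/-- The edges ab and cd of the straight-line drawing P of the complete graph cross: they share no
endpoint and their segments meet. -/
def Cross {n : ℕ} (P : Fin n → ℝ × ℝ) (a b c d : Fin n) : Prop :=
  a ≠ b ∧ c ≠ d ∧ a ≠ c ∧ a ≠ d ∧ b ≠ c ∧ b ≠ d ∧
    (segment ℝ (P a) (P b) ∩ segment ℝ (P c) (P d)).Nonempty

/-- General position: distinct points, no three collinear, no three edges through a common
crossing point. -/
def GenPos {n : ℕ} (P : Fin n → ℝ × ℝ) : Prop :=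
  Function.Injective P ∧
  (∀ a b c, a ≠ b → a ≠ c → b ≠ c → ¬ Collinear ℝ {P a, P b, P c}) ∧
  (∀ a b c d e f, Cross P a b c d → Cross P a b e f → Cross P c d e f →
    segment ℝ (P a) (P b) ∩ segment ℝ (P c) (P d) ∩ segment ℝ (P e) (P f) = ∅)

/-- Geometric realizations of the complete graph on n vertices. -/
def Realiz (n : ℕ) : Type := {P : Fin n → ℝ × ℝ // GenPos P}

/-- There is a vertex-injective geometric homomorphism from P to Q. -/
def HomLe {n : ℕ} (P Q : Realiz n) : Prop :=
  ∃ f : Fin n → Fin n, Function.Injective f ∧ (∀ u v, u ≠ v → f u ≠ f v) ∧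
    ∀ x y u v, Cross P.1 x y u v → Cross Q.1 (f x) (f y) (f u) (f v)

/-- There is a geometric isomorphism from P to Q. -/
def GeomIso {n : ℕ} (P Q : Realiz n) : Prop :=
  ∃ f : Fin n → Fin n, Function.Bijective f ∧ (∀ u v, u ≠ v ↔ f u ≠ f v) ∧
    ∀ x y u v, Cross P.1 x y u v ↔ Cross Q.1 (f x) (f y) (f u) (f v)

/-- Geometric isomorphism classes of realizations of the complete graph on n vertices. -/
def KPoset (n : ℕ) : Type := Quot (@GeomIso n)

/-- The order of the geometric homomorphism poset. -/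
def KLe {n : ℕ} (p q : KPoset n) : Prop :=
  ∃ P Q : Realiz n, Quot.mk _ P = p ∧ Quot.mk _ Q = q ∧ HomLe P Q

/-- The poset for k vertices is a sub-poset of the poset for n vertices. -/
def SubPoset (k n : ℕ) : Prop :=
  ∃ φ : KPoset k → KPoset n, Function.Injective φ ∧ ∀ p p', KLe p p' ↔ KLe (φ p) (φ p')

end Pool.Agent.Lib.MP_6e0a1a_co
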