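import Mathlib
import Pool.Agent.Lib.MP_6e0a1a_co.Defs

namespace Pool.Agent.Lib.MP_6e0a1a_co

/-- Orientation determinant. -/
def D (p q r : ℝ × ℝ) : ℝ := (q.1 - p.1) * (r.2 - p.2) - (q.2 - p.2) * (r.1 - p.1)

theorem collinear_of_D {p q r : ℝ × ℝ} (h : D p q r = 0) : Collinear ℝ {p, q, r} := by
  by_cases hpq : p = q
  · subst hpq
    simpa using collinear_pair ℝ p r
  rw [collinear_iff_of_mem (p₀ := p) (by simp)]
  refine ⟨q - p, ?_⟩
  intro x hx
  simp only [Set.mem_insert_iff, Set.mem_singleton_iff] at hx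
  rcases hx with rfl | rfl | rfl
  · exact ⟨0, by simp⟩
  · exact ⟨1, by simp⟩
  · unfold D at h
    by_cases h1 : q.1 - p.1 = 0
    · have h2 : q.2 - p.2 ≠ 0 := by
        intro h2
        apply hpq
        ext <;> linarith
      refine ⟨(x.2 - p.2) / (q.2 - p.2), ?_⟩
      have h3 : x.1 - p.1 = 0 := by
        rw [h1] at h
        have : (q.2 - p.2) * (x.1 - p.1) = 0 := by linarith
        exact (mul_eq_zero.1 this).resolve_left h2
      ext
      · simp only [vadd_eq_add, Prod.fst_add, Prod.smul_fst, Prod.fst_sub, smul_eq_mul, h1]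
        linarith
      · simp only [vadd_eq_add, Prod.snd_add, Prod.smul_snd, Prod.snd_sub, smul_eq_mul]
        field_simp
        ring
    · refine ⟨(x.1 - p.1) / (q.1 - p.1), ?_⟩
      ext
      · simp only [vadd_eq_add, Prod.fst_add, Prod.smul_fst, Prod.fst_sub, smul_eq_mul]
        field_simp
        ring
      · simp only [vadd_eq_add, Prod.snd_add, Prod.smul_snd, Prod.snd_sub, smul_eq_mul]
        field_simp
        linarith

theorem D_of_collinear {p q r : ℝ × ℝ} (h : Collinear ℝ {p, q, r}) : D p q r = 0 := by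
  rw [collinear_iff_of_mem (p₀ := p) (by simp)] at h
  obtain ⟨v, hv⟩ := h
  obtain ⟨s, hs⟩ := hv q (by simp)
  obtain ⟨t, ht⟩ := hv r (by simp)
  rw [hs, ht]
  simp only [D, vadd_eq_add, Prod.fst_add, Prod.smul_fst, Prod.snd_add, Prod.smul_snd,
    smul_eq_mul]
  ring

theorem mem_seg {p q x : ℝ × ℝ} (h : x ∈ segment ℝ p q) :
    ∃ t : ℝ, 0 ≤ t ∧ t ≤ 1 ∧ x.1 = (1 - t) * p.1 + t * q.1 ∧ x.2 = (1 - t) * p.2 + t * q.2 := by
  obtain ⟨a, b, ha, hb, hab, rfl⟩ := h
  refine ⟨b, hb, by linarith, ?_, ?_⟩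
  · have : a = 1 - b := by linarith
    simp [this]
  · have : a = 1 - b := by linarith
    simp [this]

theorem sign_opp {u v t : ℝ} (hu : u ≠ 0) (hv : v ≠ 0) (h0 : 0 ≤ t) (h1 : t ≤ 1)
    (h : (1 - t) * u + t * v = 0) : ¬ (0 < u ↔ 0 < v) := by
  intro hiff
  rcases lt_or_gt_of_ne hu with hu' | hu'
  · have hv' : v < 0 := by
      rcases lt_or_gt_of_ne hv with hv' | hv'
      · exact hv'
      · exact absurd (hiff.2 hv') (by linarith)
    rcases eq_or_lt_of_le h0 with rfl | h0'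
    · simp at h
      exact hu h
    · nlinarith [mul_pos h0' (neg_pos.2 hv'), mul_nonneg (sub_nonneg.2 h1) (neg_pos.2 hu').le]
  · have hv' : 0 < v := hiff.1 hu'
    rcases eq_or_lt_of_le h0 with rfl | h0'
    · simp at h
      exact hu h
    · nlinarith [mul_pos h0' hv', mul_nonneg (sub_nonneg.2 h1) hu'.le]

theorem ratio_mem {u v : ℝ} (hu : u ≠ 0) (hv : v ≠ 0) (h : ¬ (0 < u ↔ 0 < v)) :
    u - v ≠ 0 ∧ 0 ≤ u / (u - v) ∧ 0 ≤ -v / (u - v) := by
  rcases lt_or_gt_of_ne hu with hu' | hu' <;> rcases lt_or_gt_of_ne hv with hv' | hv'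
  · exact absurd ⟨fun h => absurd h (by linarith), fun h => absurd h (by linarith)⟩ h
  · exact ⟨by linarith, div_nonneg_of_nonpos hu'.le (by linarith),
      div_nonneg_of_nonpos (by linarith) (by linarith)⟩
  · exact ⟨by linarith, div_nonneg hu'.le (by linarith), div_nonneg (by linarith) (by linarith)⟩
  · exact absurd ⟨fun _ => hv', fun _ => hu'⟩ h

theorem seg_inter_iff {p q r s : ℝ × ℝ} (h1 : D p q r ≠ 0) (h2 : D p q s ≠ 0) (h3 : D r s p ≠ 0)
    (h4 : D r s q ≠ 0) :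
    (segment ℝ p q ∩ segment ℝ r s).Nonempty ↔
      ¬ (0 < D p q r ↔ 0 < D p q s) ∧ ¬ (0 < D r s p ↔ 0 < D r s q) := by
  constructor
  · rintro ⟨x, hx1, hx2⟩
    obtain ⟨t, t0, t1, e1, e2⟩ := mem_seg hx1
    obtain ⟨u, u0, u1, f1, f2⟩ := mem_seg hx2
    constructor
    · apply sign_opp h1 h2 u0 u1
      unfold D
      have a1 : (1 - u) * r.1 + u * s.1 = (1 - t) * p.1 + t * q.1 := by linarith
      have a2 : (1 - u) * r.2 + u * s.2 = (1 - t) * p.2 + t * q.2 := by linarith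
      linear_combination (q.1 - p.1) * a2 - (q.2 - p.2) * a1
    · apply sign_opp h3 h4 t0 t1
      unfold D
      have a1 : (1 - u) * r.1 + u * s.1 = (1 - t) * p.1 + t * q.1 := by linarith
      have a2 : (1 - u) * r.2 + u * s.2 = (1 - t) * p.2 + t * q.2 := by linarith
      linear_combination -(s.1 - r.1) * a2 + (s.2 - r.2) * a1
  · rintro ⟨ha, hb⟩
    obtain ⟨n1, a1, a2⟩ := ratio_mem h1 h2 ha
    obtain ⟨n2, b1, b2⟩ := ratio_mem h3 h4 hb
    have hrel : D r s p - D r s q = -(D p q r - D p q s) := by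
      unfold D
      ring
    refine ⟨(-D r s q / (D r s p - D r s q)) • p + (D r s p / (D r s p - D r s q)) • q,
      ⟨_, _, b2, b1, ?_, rfl⟩, ⟨-D p q s / (D p q r - D p q s), D p q r / (D p q r - D p q s),
      a2, a1, ?_, ?_⟩⟩
    · field_simp
      ring
    · field_simp
      ring
    · rw [hrel]
      ext
      · simp only [Prod.fst_add, Prod.smul_fst, smul_eq_mul]
        field_simp
        unfold D
        ring
      · simp only [Prod.snd_add, Prod.smul_snd, smul_eq_mul]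
        field_simp
        unfold D
        ring

/-- Determinant of the three lines ab, cd, ef. -/
def D3 (a b c d e f : ℝ × ℝ) : ℝ :=
  (a.2 - b.2) * ((d.1 - c.1) * (e.1 * f.2 - e.2 * f.1) - (c.1 * d.2 - c.2 * d.1) * (f.1 - e.1)) -
  (b.1 - a.1) * ((c.2 - d.2) * (e.1 * f.2 - e.2 * f.1) - (c.1 * d.2 - c.2 * d.1) * (e.2 - f.2)) +
  (a.1 * b.2 - a.2 * b.1) * ((c.2 - d.2) * (f.1 - e.1) - (d.1 - c.1) * (e.2 - f.2))

theorem line_eq {p q x : ℝ × ℝ} (h : x ∈ segment ℝ p q) :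
    (p.2 - q.2) * x.1 + (q.1 - p.1) * x.2 + (p.1 * q.2 - p.2 * q.1) = 0 := by
  obtain ⟨t, _, _, e1, e2⟩ := mem_seg h
  rw [e1, e2]
  ring

theorem D3_eq_zero {a b c d e f x : ℝ × ℝ} (h1 : x ∈ segment ℝ a b) (h2 : x ∈ segment ℝ c d)
    (h3 : x ∈ segment ℝ e f) : D3 a b c d e f = 0 := by
  have l1 := line_eq h1
  have l2 := line_eq h2
  have l3 := line_eq h3
  unfold D3
  linear_combination ((c.2 - d.2) * (f.1 - e.1) - (d.1 - c.1) * (e.2 - f.2)) * l1 -
    ((a.2 - b.2) * (f.1 - e.1) - (b.1 - a.1) * (e.2 - f.2)) * l2 +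
    ((a.2 - b.2) * (d.1 - c.1) - (b.1 - a.1) * (c.2 - d.2)) * l3

theorem GenPos.D_ne {n : ℕ} {P : Fin n → ℝ × ℝ} (h : GenPos P) {a b c : Fin n} (hab : a ≠ b)
    (hac : a ≠ c) (hbc : b ≠ c) : D (P a) (P b) (P c) ≠ 0 :=
  fun h0 => h.2.1 a b c hab hac hbc (collinear_of_D h0)

theorem cross_iff {n : ℕ} {P : Fin n → ℝ × ℝ}
    (h : ∀ a b c, a ≠ b → a ≠ c → b ≠ c → D (P a) (P b) (P c) ≠ 0) (a b c d : Fin n) :
    Cross P a b c d ↔ a ≠ b ∧ c ≠ d ∧ a ≠ c ∧ a ≠ d ∧ b ≠ c ∧ b ≠ d ∧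
      ¬ (0 < D (P a) (P b) (P c) ↔ 0 < D (P a) (P b) (P d)) ∧
      ¬ (0 < D (P c) (P d) (P a) ↔ 0 < D (P c) (P d) (P b)) := by
  unfold Cross
  constructor
  · rintro ⟨h1, h2, h3, h4, h5, h6, h7⟩
    exact ⟨h1, h2, h3, h4, h5, h6, (seg_inter_iff (h _ _ _ h1 h3 h5) (h _ _ _ h1 h4 h6)
      (h _ _ _ h2 h3.symm h4.symm) (h _ _ _ h2 h5.symm h6.symm)).1 h7⟩
  · rintro ⟨h1, h2, h3, h4, h5, h6, h7⟩
    exact ⟨h1, h2, h3, h4, h5, h6, (seg_inter_iff (h _ _ _ h1 h3 h5) (h _ _ _ h1 h4 h6)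
      (h _ _ _ h2 h3.symm h4.symm) (h _ _ _ h2 h5.symm h6.symm)).2 h7⟩

/-- Radial sorting around an extreme point. -/
theorem exists_sort {n : ℕ} (P : Fin (n + 1) → ℝ × ℝ) (hinj : Function.Injective P)
    (h : ∀ a b c, a ≠ b → a ≠ c → b ≠ c → D (P a) (P b) (P c) ≠ 0) :
    ∃ σ : Equiv.Perm (Fin (n + 1)), ∀ j k : Fin (n + 1), 0 < j → j < k →
      0 < D (P (σ 0)) (P (σ j)) (P (σ k)) := by
  classical
  obtain ⟨t, ht⟩ := Infinite.exists_notMem_finset
    ((Finset.univ : Finset (Fin (n + 1) × Fin (n + 1))).image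
      (fun ij => ((P ij.2).1 - (P ij.1).1) / ((P ij.1).2 - (P ij.2).2)))
  let u : Fin (n + 1) → ℝ := fun i => (P i).1 + t * (P i).2
  have hu : Function.Injective u := by
    intro i j hij
    by_contra hne
    by_cases hy : (P i).2 - (P j).2 = 0
    · apply hne
      apply hinj
      have h2 : (P i).2 = (P j).2 := by linarith
      have h1 : (P i).1 = (P j).1 := by
        simp only [u, h2] at hij
        linarith
      exact Prod.ext h1 h2
    · apply ht
      refine Finset.mem_image.2 ⟨(i, j), Finset.mem_univ _, ?_⟩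
      simp only [u] at hij
      field_simp
      linarith
  obtain ⟨p0, hp0⟩ := Finite.exists_min u
  have hpos : ∀ j, j ≠ p0 → 0 < u j - u p0 := by
    intro j hj
    have := lt_of_le_of_ne (hp0 j) (fun e => hj (hu e).symm)
    linarith
  let s : Fin (n + 1) → ℝ := fun j => ((P j).2 - (P p0).2) / (u j - u p0)
  obtain ⟨m, hm⟩ := Finite.exists_min s
  let key : Fin (n + 1) → ℝ := fun j => if j = p0 then s m - 1 else s j
  refine ⟨Tuple.sort key, ?_⟩
  have hmono := Tuple.monotone_sort key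
  have h0 : Tuple.sort key 0 = p0 := by
    by_contra hne
    have h1 := hmono (Fin.zero_le ((Tuple.sort key).symm p0))
    simp only [Function.comp_apply, Equiv.apply_symm_apply, key, if_neg hne, if_true] at h1
    have := hm (Tuple.sort key 0)
    linarith
  intro j k hj hjk
  have hj0 : Tuple.sort key j ≠ p0 := by
    rw [← h0]
    exact fun e => hj.ne' ((Tuple.sort key).injective e)
  have hk0 : Tuple.sort key k ≠ p0 := by
    rw [← h0]
    exact fun e => (hj.trans hjk).ne' ((Tuple.sort key).injective e)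
  have hle := hmono hjk.le
  simp only [Function.comp_apply, key, if_neg hj0, if_neg hk0, s] at hle
  have pj := hpos _ hj0
  have pk := hpos _ hk0
  rw [div_le_div_iff₀ pj pk] at hle
  have hne : D (P p0) (P (Tuple.sort key j)) (P (Tuple.sort key k)) ≠ 0 :=
    h _ _ _ hj0.symm hk0.symm (fun e => hjk.ne ((Tuple.sort key).injective e))
  rw [h0]
  refine lt_of_le_of_ne ?_ hne.symm
  unfold D
  simp only [u] at hle
  nlinarith [hle]

/-- The three Grassmann-Pluecker consequences for radially sorted points. -/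
theorem gp1 {o x a b : ℝ × ℝ} (c : ℝ × ℝ) :
    D x a c * D o x b = D x a b * D o x c + D x b c * D o x a := by
  unfold D
  ring

theorem gp2 {o x a b : ℝ × ℝ} (c : ℝ × ℝ) :
    D x b c * D o a c = D x a c * D o b c + D a b c * D o x c := by
  unfold D
  ring

theorem gp3 {o x a b : ℝ × ℝ} (c : ℝ × ℝ) :
    D x a c * D o a b = D x a b * D o a c + D a b c * D o x a := by
  unfold D
  ring

theorem sign_comb {y u v p q r : ℝ} (hu : u ≠ 0) (hv : v ≠ 0) (hp : 0 < p) (hq : 0 < q)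
    (hr : 0 < r) (h : y * p = u * q + v * r) (huv : 0 < u ↔ 0 < v) : (0 < y ↔ 0 < u) := by
  rcases lt_or_gt_of_ne hu with hu' | hu'
  · have hv' : v < 0 := by
      rcases lt_or_gt_of_ne hv with hv' | hv'
      · exact hv'
      · exact absurd (huv.2 hv') (by linarith)
    have : y * p < 0 := by nlinarith [mul_pos (neg_pos.2 hu') hq, mul_pos (neg_pos.2 hv') hr]
    have hy : y < 0 := by
      by_contra hy
      have := mul_nonneg (not_lt.1 hy) hp.le
      linarith
    exact ⟨fun h => absurd h (by linarith), fun h => absurd h (by linarith)⟩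
  · have hv' := huv.1 hu'
    have : 0 < y * p := by nlinarith [mul_pos hu' hq, mul_pos hv' hr]
    have hy : 0 < y := by
      by_contra hy
      have := mul_nonpos_of_nonpos_of_nonneg (not_lt.1 hy) hp.le
      linarith
    exact ⟨fun _ => hu', fun _ => hy⟩

end Pool.Agent.Lib.MP_6e0a1a_co
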