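import Mathlib
import Pool.Agent.Lib.MP_6e0a1a_co.Geom

namespace Pool.Agent.Lib.MP_6e0a1a_co

/-- Evaluate n before passing it on. -/
noncomputable def force {α : Type} (n : ℕ) (f : ℕ → α) : α :=
  Nat.rec (motive := fun _ => α) (f 0) (fun k _ => f (Nat.succ k)) n

theorem force_eq {α : Type} (n : ℕ) (f : ℕ → α) : force n f = f n := by
  cases n <;> rfl

/-- Bit test written with the primitive operations. -/
def tb (x i : ℕ) : Bool := Nat.beq (Nat.land (Nat.shiftRight x i) 1) 1

theorem tb_eq (x i : ℕ) : tb x i = x.testBit i := by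
  unfold tb
  have h1 : Nat.land (Nat.shiftRight x i) 1 = (x >>> i) % 2 := Nat.and_one_is_mod _
  rw [h1, Nat.testBit_eq_decide_div_mod_eq, Nat.shiftRight_eq_div_pow]
  by_cases h : x / 2 ^ i % 2 = 1
  · simp [h]
  · simp only [h, decide_false]
    exact Bool.eq_false_iff.2 (fun e => h (Nat.eq_of_beq_eq_true e))

theorem tb_land (x y i : ℕ) : tb (Nat.land x y) i = (tb x i && tb y i) := by
  simp only [tb_eq]
  exact Nat.testBit_and x y i

theorem tb_xor (x y i : ℕ) : tb (Nat.xor x y) i = (tb x i ^^ tb y i) := by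
  simp only [tb_eq]
  exact Nat.testBit_xor x y i

theorem rec_and (a b : Bool) :
    (Bool.rec (motive := fun _ => Bool) false b a) = (a && b) := by
  cases a <;> rfl

theorem rec_or (a b : Bool) :
    (Bool.rec (motive := fun _ => Bool) b true a) = (a || b) := by
  cases a <;> rfl

theorem rec_imp (a b : Bool) :
    (Bool.rec (motive := fun _ => Bool) true b a) = (!a || b) := by
  cases a <;> rfl

noncomputable def allN (n : ℕ) (f : ℕ → Bool) : Bool :=
  Nat.rec (motive := fun _ => Bool) true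
    (fun k ih => Bool.rec (motive := fun _ => Bool) false ih (f k)) n

theorem allN_elim {n : ℕ} {f : ℕ → Bool} (h : allN n f = true) {a : ℕ} (ha : a < n) :
    f a = true := by
  induction n with
  | zero => omega
  | succ n ih =>
    have h' : (f n && allN n f) = true := (rec_and _ _).symm.trans h
    rw [Bool.and_eq_true] at h'
    rcases Nat.lt_succ_iff_lt_or_eq.1 ha with h1 | rfl
    · exact ih h'.2 h1
    · exact h'.1

noncomputable def allL {α : Type} (l : List α) (f : α → Bool) : Bool :=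
  List.rec (motive := fun _ => Bool) true
    (fun x _ ih => Bool.rec (motive := fun _ => Bool) false ih (f x)) l

theorem allL_elim {α : Type} {l : List α} {f : α → Bool} (h : allL l f = true) {a : α}
    (ha : a ∈ l) : f a = true := by
  induction l with
  | nil => simp at ha
  | cons x l ih =>
    have h' : (f x && allL l f) = true := (rec_and _ _).symm.trans h
    rw [Bool.and_eq_true] at h'
    rcases List.mem_cons.1 ha with rfl | h1
    · exact h'.1
    · exact ih h'.2 h1

noncomputable def anyL {α : Type} (l : List α) (f : α → Bool) : Bool :=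
  List.rec (motive := fun _ => Bool) false
    (fun x _ ih => Bool.rec (motive := fun _ => Bool) ih true (f x)) l

theorem anyL_elim {α : Type} {l : List α} {f : α → Bool} (h : anyL l f = true) :
    ∃ a ∈ l, f a = true := by
  induction l with
  | nil => exact absurd h (by simp [anyL])
  | cons x l ih =>
    have h' : (f x || anyL l f) = true := (rec_or _ _).symm.trans h
    rw [Bool.or_eq_true] at h'
    rcases h' with h1 | h1
    · exact ⟨x, List.mem_cons_self, h1⟩
    · obtain ⟨a, ha, hf⟩ := ih h1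
      exact ⟨a, List.mem_cons_of_mem _ ha, hf⟩

/-- Crossing type of an ordered quadruple, read from a code. -/
def ty (g a b c d : ℕ) : ℕ :=
  Nat.land (Nat.shiftRight g
    (Nat.mul 2 (Nat.add (Nat.mul (Nat.add (Nat.mul (Nat.add (Nat.mul a 7) b) 7) c) 7) d))) 3

def bit (g a b c d : ℕ) : Bool := Nat.beq (ty g a b c d) 1

theorem ty_le (g a b c d : ℕ) : ty g a b c d ≤ 3 := Nat.and_le_right

/-- Case distinction on a number at most three. -/
noncomputable def sel {α : Type} (y : ℕ) (x0 x1 x2 x3 : α) : α :=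
  Nat.rec (motive := fun _ => α) x0 (fun y1 _ => Nat.rec (motive := fun _ => α) x1
    (fun y2 _ => Nat.rec (motive := fun _ => α) x2 (fun _ _ => x3) y2) y1) y

noncomputable def tcOK (g : ℕ) : Bool :=
  allN 7 fun a => allN 7 fun b => allN 7 fun c => allN 7 fun d =>
    sel (ty g a b c d) true
      (!(Nat.beq a b) && !(Nat.beq c d) && !(Nat.beq a c) && !(Nat.beq a d) && !(Nat.beq b c) &&
        !(Nat.beq b d) && bit g b a c d && bit g c d a b)
      (bit g a c b d) (bit g a d b c)

noncomputable def step (g M a b c d m1 m2 m3 : ℕ) : ℕ :=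
  sel (ty g a b c d) M (Nat.land M m1) (Nat.land M m2) (Nat.land M m3)

theorem step_sound {g M a b c d m1 m2 m3 h : ℕ} (hg : tcOK g = true) (ha : a < 7) (hb : b < 7)
    (hc : c < 7) (hd : d < 7) (hM : tb M h = true) (h1 : bit g a b c d = true → tb m1 h = true)
    (h2 : bit g a c b d = true → tb m2 h = true) (h3 : bit g a d b c = true → tb m3 h = true) :
    tb (step g M a b c d m1 m2 m3) h = true := by
  have hy := allN_elim (allN_elim (allN_elim (allN_elim hg ha) hb) hc) hd
  have hle := ty_le g a b c d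
  unfold step
  have h1' : ty g a b c d = 1 → tb m1 h = true := fun e => h1 (by simp [bit, e])
  generalize ty g a b c d = y at hy hle h1'
  interval_cases y
  · exact hM
  · change tb (Nat.land M m1) h = true
    rw [tb_land, hM, h1' rfl, Bool.and_self]
  · change tb (Nat.land M m2) h = true
    rw [tb_land, hM, h2 hy, Bool.and_self]
  · change tb (Nat.land M m3) h = true
    rw [tb_land, hM, h3 hy, Bool.and_self]

theorem tc_sym {g a b c d : ℕ} (hg : tcOK g = true) (ha : a < 7) (hb : b < 7)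
    (hc : c < 7) (hd : d < 7) (e : bit g a b c d = true) :
    a ≠ b ∧ c ≠ d ∧ a ≠ c ∧ a ≠ d ∧ b ≠ c ∧ b ≠ d ∧ bit g b a c d = true ∧
      bit g c d a b = true := by
  have hy := allN_elim (allN_elim (allN_elim (allN_elim hg ha) hb) hc) hd
  have h1 : ty g a b c d = 1 := Nat.eq_of_beq_eq_true e
  rw [h1] at hy
  change (!(Nat.beq a b) && !(Nat.beq c d) && !(Nat.beq a c) && !(Nat.beq a d) &&
    !(Nat.beq b c) && !(Nat.beq b d) && bit g b a c d && bit g c d a b) = true at hy
  simp only [Bool.and_eq_true, Bool.not_eq_true'] at hy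
  obtain ⟨⟨⟨⟨⟨⟨⟨e1, e2⟩, e3⟩, e4⟩, e5⟩, e6⟩, e7⟩, e8⟩ := hy
  exact ⟨Nat.ne_of_beq_eq_false e1, Nat.ne_of_beq_eq_false e2, Nat.ne_of_beq_eq_false e3,
    Nat.ne_of_beq_eq_false e4, Nat.ne_of_beq_eq_false e5, Nat.ne_of_beq_eq_false e6, e7, e8⟩

/-- Reduction of a symmetric implication to normalised quadruples. -/
theorem sym_reduce {n : ℕ} {A B : Fin n → Fin n → Fin n → Fin n → Prop}
    (hA : ∀ a b c d, A a b c d → a ≠ b ∧ c ≠ d ∧ a ≠ c ∧ A b a c d ∧ A c d a b)
    (hB : ∀ a b c d, B a b c d → B b a c d ∧ B c d a b)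
    (h : ∀ a b c d, a < b → c < d → a < c → A a b c d → B a b c d) :
    ∀ a b c d, A a b c d → B a b c d := by
  have s1 : ∀ a b c d, a < b → c < d → A a b c d → B a b c d := by
    intro a b c d hab hcd hx
    rcases lt_or_gt_of_ne (hA _ _ _ _ hx).2.2.1 with h1 | h1
    · exact h _ _ _ _ hab hcd h1 hx
    · exact (hB _ _ _ _ (h _ _ _ _ hcd hab h1 (hA _ _ _ _ hx).2.2.2.2)).2
  have s2 : ∀ a b c d, c < d → A a b c d → B a b c d := by
    intro a b c d hcd hx
    rcases lt_or_gt_of_ne (hA _ _ _ _ hx).1 with h1 | h1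
    · exact s1 _ _ _ _ h1 hcd hx
    · exact (hB _ _ _ _ (s1 _ _ _ _ h1 hcd (hA _ _ _ _ hx).2.2.2.1)).1
  intro a b c d hx
  rcases lt_or_gt_of_ne (hA _ _ _ _ hx).2.1 with h1 | h1
  · exact s2 _ _ _ _ h1 hx
  · have x1 := (hA _ _ _ _ hx).2.2.2.2
    have x2 := (hA _ _ _ _ x1).2.2.2.1
    have x3 := (hA _ _ _ _ x2).2.2.2.2
    have y3 := s2 _ _ _ _ h1 x3
    exact (hB _ _ _ _ (hB _ _ _ _ (hB _ _ _ _ y3).2).1).2

/-- Loop over the quadruples with a < b, c < d, a < c. -/
noncomputable def allQ (n : ℕ) (f : ℕ → ℕ → ℕ → ℕ → Bool) : Bool :=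
  allN n fun d => allN d fun c => allN c fun a => allN n fun b =>
    Bool.rec (motive := fun _ => Bool) (f a b c d) true (Nat.ble b a)

theorem allQ_elim {n : ℕ} {f : ℕ → ℕ → ℕ → ℕ → Bool} (e : allQ n f = true) {a b c d : ℕ}
    (hb : b < n) (hd : d < n) (hab : a < b) (hcd : c < d) (hac : a < c) : f a b c d = true := by
  have := allN_elim (allN_elim (allN_elim (allN_elim e hd) hcd) hac) hb
  rw [rec_or, Bool.or_eq_true] at this
  refine this.resolve_left (fun h => ?_)
  have := Nat.le_of_ble_eq_true h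
  omega

noncomputable def prune (R M : ℕ) (f : ℕ → Bool) : Bool :=
  force M fun M => Bool.rec (motive := fun _ => Bool) (f M) true (Nat.beq (Nat.land M R) M)

theorem prune_elim {R M h : ℕ} {f : ℕ → Bool} (e : prune R M f = true) (hM : tb M h = true)
    (hR : tb R h = false) : f M = true := by
  unfold prune at e
  rw [force_eq, rec_or, Bool.or_eq_true] at e
  rcases e with e | e
  · have := Nat.eq_of_beq_eq_true e
    rw [← this, tb_land, hR, Bool.and_false] at hM
    exact absurd hM (by simp)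
  · exact e

noncomputable def skip (a b : ℕ) (x : Bool) : Bool :=
  Bool.rec (motive := fun _ => Bool) x true (Nat.beq a b)

theorem skip_elim {a b : ℕ} {x : Bool} (e : skip a b x = true) (h : a ≠ b) : x = true := by
  unfold skip at e
  rw [rec_or, Bool.or_eq_true] at e
  exact e.resolve_left (fun e' => h (Nat.eq_of_beq_eq_true e'))

/-- P is represented by the code g. -/
def Rep {n : ℕ} (P : Fin n → ℝ × ℝ) (g : ℕ) : Prop :=
  ∃ σ : Equiv.Perm (Fin n), ∀ a b c d : Fin n,
    Cross P (σ a) (σ b) (σ c) (σ d) ↔ bit g a b c d = true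

def LEc (n g h : ℕ) : Prop :=
  ∃ π : Equiv.Perm (Fin n), ∀ a b c d : Fin n,
    bit g a b c d = true → bit h (π a) (π b) (π c) (π d) = true

theorem homLe_iff {n : ℕ} {P Q : Realiz n} {g h : ℕ} (hP : Rep P.1 g) (hQ : Rep Q.1 h) :
    HomLe P Q ↔ LEc n g h := by
  obtain ⟨σ, hσ⟩ := hP
  obtain ⟨ρ, hρ⟩ := hQ
  constructor
  · rintro ⟨f, hf, _, hc⟩
    let e : Equiv.Perm (Fin n) := Equiv.ofBijective f (Finite.injective_iff_bijective.1 hf)
    refine ⟨σ.trans (e.trans ρ.symm), fun a b c d hb => ?_⟩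
    rw [← hρ]
    simp only [Equiv.trans_apply, Equiv.apply_symm_apply]
    exact hc _ _ _ _ ((hσ a b c d).2 hb)
  · rintro ⟨π, hπ⟩
    let e : Equiv.Perm (Fin n) := σ.symm.trans (π.trans ρ)
    refine ⟨e, e.injective, fun u v huv e' => huv (e.injective e'), fun x y u v hx => ?_⟩
    have := hπ (σ.symm x) (σ.symm y) (σ.symm u) (σ.symm v) ((hσ _ _ _ _).1 (by simpa using hx))
    exact (hρ _ _ _ _).2 this

theorem homLe_trans {n : ℕ} {P Q R : Realiz n} (h1 : HomLe P Q) (h2 : HomLe Q R) : HomLe P R := by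
  obtain ⟨f, hf, _, hc⟩ := h1
  obtain ⟨g, hg, _, hd⟩ := h2
  exact ⟨g ∘ f, hg.comp hf, fun u v huv e => huv ((hg.comp hf) e),
    fun x y u v hx => hd _ _ _ _ (hc _ _ _ _ hx)⟩

theorem homLe_refl {n : ℕ} (P : Realiz n) : HomLe P P :=
  ⟨id, Function.injective_id, fun _ _ h => h, fun _ _ _ _ h => h⟩

theorem iso_homLe {n : ℕ} {P Q : Realiz n} (h : GeomIso P Q) : HomLe P Q ∧ HomLe Q P := by
  obtain ⟨f, hf, _, hc⟩ := h
  refine ⟨⟨f, hf.1, fun u v huv e => huv (hf.1 e), fun x y u v hx => (hc _ _ _ _).1 hx⟩, ?_⟩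
  let e := Equiv.ofBijective f hf
  refine ⟨e.symm, e.symm.injective, fun u v huv e' => huv (e.symm.injective e'),
    fun x y u v hx => (hc _ _ _ _).2 ?_⟩
  have h1 : ∀ z, f (e.symm z) = z := fun z => e.apply_symm_apply z
  simpa only [h1] using hx

theorem eq_homLe {n : ℕ} {P Q : Realiz n}
    (h : (Quot.mk _ P : KPoset n) = Quot.mk _ Q) : HomLe P Q ∧ HomLe Q P := by
  have h1 := Quot.eqvGen_exact h
  clear h
  induction h1 with
  | rel x y hxy => exact iso_homLe hxy
  | refl x => exact ⟨homLe_refl x, homLe_refl x⟩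
  | symm x y _ ih => exact ⟨ih.2, ih.1⟩
  | trans x y z _ _ ih1 ih2 => exact ⟨homLe_trans ih1.1 ih2.1, homLe_trans ih2.2 ih1.2⟩

theorem kLe_mk {n : ℕ} (P Q : Realiz n) :
    KLe (Quot.mk _ P : KPoset n) (Quot.mk _ Q) ↔ HomLe P Q := by
  constructor
  · rintro ⟨P', Q', h1, h2, h3⟩
    exact homLe_trans (eq_homLe h1).2 (homLe_trans h3 (eq_homLe h2).1)
  · intro h
    exact ⟨P, Q, rfl, rfl, h⟩

/-- Digit i of a permutation code. -/
def dig (p i : ℕ) : ℕ := Nat.land (Nat.shiftRight p (Nat.mul 3 i)) 7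

noncomputable def permOK (n p : ℕ) : Bool :=
  allN n fun i => Nat.blt (dig p i) n && allN n fun j =>
    Nat.beq i j || !(Nat.beq (dig p i) (dig p j))

theorem perm_of_ok {n p : ℕ} (h : permOK n p = true) :
    ∃ π : Equiv.Perm (Fin n), ∀ i : Fin n, (π i : ℕ) = dig p i := by
  have h1 : ∀ i : Fin n, dig p i < n := by
    intro i
    have := allN_elim h i.2
    rw [Bool.and_eq_true] at this
    simpa using this.1
  let f : Fin n → Fin n := fun i => ⟨dig p i, h1 i⟩
  have hf : Function.Injective f := by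
    intro i j hij
    have := allN_elim h i.2
    rw [Bool.and_eq_true] at this
    have h2 := allN_elim this.2 j.2
    rw [Bool.or_eq_true] at h2
    rcases h2 with h2 | h2
    · exact Fin.ext (Nat.eq_of_beq_eq_true h2)
    · have h3 : dig p i = dig p j := congrArg Fin.val hij
      rw [h3] at h2
      simp at h2
  exact ⟨Equiv.ofBijective f (Finite.injective_iff_bijective.1 hf), fun i => rfl⟩

noncomputable def homOK (n g h p : ℕ) : Bool :=
  permOK n p && allQ n fun a b c d => Bool.rec (motive := fun _ => Bool) true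
    (bit h (dig p a) (dig p b) (dig p c) (dig p d)) (bit g a b c d)

theorem lec_of_homOK {n g h p : ℕ} (hn : n ≤ 7) (hg : tcOK g = true) (hh : tcOK h = true)
    (e : homOK n g h p = true) : LEc n g h := by
  unfold homOK at e
  rw [Bool.and_eq_true] at e
  obtain ⟨π, hπ⟩ := perm_of_ok e.1
  have l7 : ∀ a : Fin n, (a : ℕ) < 7 := fun a => lt_of_lt_of_le a.2 hn
  refine ⟨π, sym_reduce (A := fun a b c d : Fin n => bit g a b c d = true)
    (B := fun a b c d : Fin n => bit h (π a) (π b) (π c) (π d) = true) ?_ ?_ ?_⟩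
  · intro a b c d hx
    obtain ⟨e1, e2, e3, _, _, _, e7, e8⟩ := tc_sym hg (l7 a) (l7 b) (l7 c) (l7 d) hx
    exact ⟨fun e => e1 (congrArg Fin.val e), fun e => e2 (congrArg Fin.val e),
      fun e => e3 (congrArg Fin.val e), e7, e8⟩
  · intro a b c d hx
    obtain ⟨_, _, _, _, _, _, e7, e8⟩ := tc_sym hh (l7 _) (l7 _) (l7 _) (l7 _) hx
    exact ⟨e7, e8⟩
  · intro a b c d hab hcd hac hb
    have := allQ_elim e.2 b.2 d.2 hab hcd hac
    rw [hb] at this
    simpa only [hπ] using this

theorem lec_refl (n g : ℕ) : LEc n g g := ⟨Equiv.refl _, fun _ _ _ _ h => h⟩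

theorem lec_inv {n g h : ℕ} (e : LEc n g h) :
    ∃ τ : ℕ → ℕ, (∀ i < n, τ i < n) ∧ (∀ i < n, ∀ j < n, i ≠ j → τ i ≠ τ j) ∧
      ∀ i < n, ∀ j < n, ∀ k < n, ∀ l < n,
        bit g (τ i) (τ j) (τ k) (τ l) = true → bit h i j k l = true := by
  obtain ⟨π, hπ⟩ := e
  refine ⟨fun i => if hi : i < n then (π.symm ⟨i, hi⟩ : ℕ) else 0, ?_, ?_, ?_⟩
  · intro i hi
    simp only [dif_pos hi]
    exact (π.symm ⟨i, hi⟩).2
  · intro i hi j hj hij e
    simp only [dif_pos hi, dif_pos hj] at e
    exact hij (congrArg Fin.val (π.symm.injective (Fin.ext e)))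
  · intro i hi j hj k hk l hl hb
    simp only [dif_pos hi, dif_pos hj, dif_pos hk, dif_pos hl] at hb
    simpa using hπ _ _ _ _ hb

/-- Entry h of a list of naturals. -/
noncomputable def nth (l : List ℕ) : ℕ → ℕ :=
  List.rec (motive := fun _ => ℕ → ℕ) (fun _ => 0)
    (fun x _ ih i => Nat.rec (motive := fun _ => ℕ) x (fun j _ => ih j) i) l

/-- A mask lists the classes in which the quadruple crosses. -/
noncomputable def maskOK (codes : List ℕ) (m N i j k l : ℕ) : Bool :=
  allN N fun h => !(bit (nth codes h) i j k l) || tb m h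

theorem maskOK_elim {codes : List ℕ} {m N i j k l h : ℕ} (e : maskOK codes m N i j k l = true)
    (hh : h < N) (hb : bit (nth codes h) i j k l = true) : tb m h = true := by
  have := allN_elim e hh
  rw [hb] at this
  simpa using this

/-- Slot x of a table with slots of 128 bits. -/
def slot (T x : ℕ) : ℕ :=
  Nat.land (Nat.shiftRight T (Nat.mul 128 x)) 340282366920938463463374607431768211455

def full : ℕ := 340282366920938463463374607431768211455

theorem tb_full {h : ℕ} (hh : h < 128) : tb full h = true := by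
  rw [tb_eq]
  have : full = 2 ^ 128 - 1 := by norm_num [full]
  rw [this, Nat.testBit_two_pow_sub_one]
  simpa using hh

end Pool.Agent.Lib.MP_6e0a1a_co
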