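import Mathlib
import Pool.Agent.Lib.MP_6e0a1a_co.Comb

namespace Pool.Agent.Lib.MP_6e0a1a_co

theorem allN_intro {n : ℕ} {f : ℕ → Bool} (h : ∀ a < n, f a = true) : allN n f = true := by
  induction n with
  | zero => rfl
  | succ n ih =>
    have e : allN (n + 1) f = (f n && allN n f) := rec_and _ _
    rw [e, h n (Nat.lt_succ_self n), ih fun a ha => h a (Nat.lt_succ_of_lt ha)]
    rfl

theorem allL_intro {α : Type} {l : List α} {f : α → Bool} (h : ∀ a ∈ l, f a = true) :
    allL l f = true := by
  induction l with
  | nil => rfl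
  | cons x l ih =>
    have e : allL (x :: l) f = (f x && allL l f) := rec_and _ _
    rw [e, h x List.mem_cons_self, ih fun a ha => h a (List.mem_cons_of_mem _ ha)]
    rfl

theorem upto_zero (f : ℕ → Bool) : ∀ a < 0, f a = true := fun _ h => absurd h (Nat.not_lt_zero _)

theorem upto_step {f : ℕ → Bool} {c n m : ℕ} (e : c + n = m) (h1 : ∀ a < c, f a = true)
    (h2 : allN n (fun k => f (Nat.add k c)) = true) : ∀ a < m, f a = true := by
  intro a ha
  by_cases h : a < c
  · exact h1 a h
  · have h3 := allN_elim h2 (show a - c < n by omega)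
    have e' : Nat.add (a - c) c = a := by
      change a - c + c = a
      omega
    simpa only [e'] using h3

theorem drop_step {α : Type} {l : List α} {f : α → Bool} {c n m : ℕ} (e : c + n = m)
    (h1 : allL ((l.drop c).take n) f = true) (h2 : ∀ a ∈ l.drop m, f a = true) :
    ∀ a ∈ l.drop c, f a = true := by
  intro a ha
  rw [← List.take_append_drop n (l.drop c), List.mem_append, List.drop_drop, e] at ha
  rcases ha with ha | ha
  · exact allL_elim h1 ha
  · exact h2 a ha

end Pool.Agent.Lib.MP_6e0a1a_co
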