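import Mathlib
import Pool.Agent.Lib.MP_6e0a1a_co.Search7
import Pool.Agent.Lib.MP_6e0a1a_co.Chunk

namespace Pool.Agent.Lib.MP_6e0a1a_co

theorem tc7_c0 : allN 25 (fun k => (fun j => tcOK (nth codes7 j)) (Nat.add k 0)) = true := by
  decide +kernel

theorem tc7_c1 : allN 25 (fun k => (fun j => tcOK (nth codes7 j)) (Nat.add k 25)) = true := by
  decide +kernel

theorem tc7_c2 : allN 25 (fun k => (fun j => tcOK (nth codes7 j)) (Nat.add k 50)) = true := by
  decide +kernel

theorem tc7_c3 : allN 25 (fun k => (fun j => tcOK (nth codes7 j)) (Nat.add k 75)) = true := by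
  decide +kernel

theorem tc7_c4 : allN 22 (fun k => (fun j => tcOK (nth codes7 j)) (Nat.add k 100)) = true := by
  decide +kernel

theorem tc7_ok : allN 122 (fun g => tcOK (nth codes7 g)) = true :=
  allN_intro (upto_step (c := 100) (n := 22) (m := 122) rfl
    (upto_step (c := 75) (n := 25) (m := 100) rfl
    (upto_step (c := 50) (n := 25) (m := 75) rfl
    (upto_step (c := 25) (n := 25) (m := 50) rfl
    (upto_step (c := 0) (n := 25) (m := 25) rfl (upto_zero _) tc7_c0) tc7_c1) tc7_c2) tc7_c3) tc7_c4)

theorem pos7_ok : allL pos7 posOK7 = true := by decide +kernel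

theorem row7_ok : rowOK7 = true := by decide +kernel

end Pool.Agent.Lib.MP_6e0a1a_co
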