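import Mathlib
import Pool.Agent.Lib.MP_6e0a1a_co.Chunk
import Pool.Agent.Lib.MP_6e0a1a_co.Pos7

namespace Pool.Agent.Lib.MP_6e0a1a_co

def pos3 (a b c : ℕ) : ℕ :=
  Nat.add (Nat.add (Nat.sub a 1) (Nat.div (Nat.mul (Nat.sub b 1) (Nat.sub b 2)) 2))
    (Nat.div (Nat.mul (Nat.mul (Nat.sub c 1) (Nat.sub c 2)) (Nat.sub c 3)) 6)

noncomputable def sg (v a b c : ℕ) : Bool :=
  Bool.rec (motive := fun _ => Bool) (tb v (pos3 a b c)) true (Nat.beq a 0)

noncomputable def chi (v a b c : ℕ) : Bool :=
  cond (Nat.blt a b)
    (cond (Nat.blt b c) (sg v a b c) (cond (Nat.blt a c) (!sg v a c b) (sg v c a b)))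
    (cond (Nat.blt a c) (!sg v b a c) (cond (Nat.blt b c) (sg v b c a) (!sg v c b a)))

noncomputable def crossS (v a b c d : ℕ) : Bool :=
  (chi v a b c ^^ chi v a b d) && (chi v c d a ^^ chi v c d b)

noncomputable def certOK (e : ℕ × ℕ × ℕ) : Bool :=
  force e.1 fun v => force e.2.1 fun h => force e.2.2 fun p =>
    Nat.blt h 122 && permOK 7 p && allQ 7 fun a b c d => skip b c <| skip b d <|
      force (dig p a) fun a' => force (dig p b) fun b' => force (dig p c) fun c' =>
        force (dig p d) fun d' => !(crossS v a' b' c' d' ^^ bit (nth codes7 h) a b c d)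

noncomputable def enc (l : List Bool) : ℕ :=
  List.rec (motive := fun _ => ℕ) 0
    (fun b _ ih => Nat.add (Nat.mul 2 ih) (Bool.rec (motive := fun _ => ℕ) 0 1 b)) l

theorem tb_enc (l : List Bool) (i : ℕ) : tb (enc l) i = l.getD i false := by
  rw [tb_eq]
  induction l generalizing i with
  | nil => simp [enc]
  | cons b l ih =>
    have e : enc (b :: l) = Nat.bit b (enc l) := by
      cases b <;> simp [enc, Nat.bit]
    rw [e]
    cases i with
    | zero => simp
    | succ i => rw [Nat.testBit_bit_succ, ih, List.getD_cons_succ]

def mono (s1 s2 s3 s4 : Bool) : Bool :=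
  ((s1 ^^ s3) || !(s2 ^^ s1)) && ((s2 ^^ s4) || !(s3 ^^ s2)) && ((s1 ^^ s4) || !(s2 ^^ s1))

noncomputable def allB (f : Bool → Bool) : Bool :=
  Bool.rec (motive := fun _ => Bool) false (f false) (f true)

theorem allB_elim {f : Bool → Bool} (e : allB f = true) (b : Bool) : f b = true := by
  unfold allB at e
  rw [rec_and, Bool.and_eq_true] at e
  cases b
  · exact e.2
  · exact e.1

noncomputable def imp (a x : Bool) : Bool := Bool.rec (motive := fun _ => Bool) true x a

theorem imp_elim {a x : Bool} (e : imp a x = true) (h : a = true) : x = true := by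
  subst h
  exact e

def certs7 : List (ℕ × ℕ × ℕ) := [
  (1048575, 121, 1754760), (524287, 120, 856436), (262143, 119, 856436), (131071, 119, 342384),
  (65535, 120, 342384), (229375, 110, 43806), (98303, 112, 559923), (32767, 115, 342384),
  (81919, 104, 342384), (16383, 112, 342384), (8191, 110, 858438), (77823, 67, 55510),
  (12287, 90, 170198), (4095, 90, 629062), (2047, 67, 571718), (1023, 26, 1455174),
  (1048063, 120, 560427), (1015295, 119, 1578269), (753151, 110, 559475), (228863, 103, 342384),
  (97791, 102, 342384), (32255, 111, 342384), (81407, 93, 342384), (15871, 101, 342384),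
  (7679, 99, 858438), (77311, 57, 284914), (11775, 77, 284914), (3583, 77, 342384),
  (1535, 57, 342384), (511, 14, 1455174), (1047807, 119, 560427), (1015039, 117, 559531),
  (752895, 99, 559475), (998655, 118, 342384), (736511, 100, 559475), (605439, 92, 559475),
  (81151, 92, 342384), (15615, 100, 342384), (7423, 99, 342384), (601343, 49, 51926),
  (77055, 54, 342384), (11519, 72, 342384), (3327, 71, 342384), (1279, 53, 342384),
  (255, 15, 1455174), (1047679, 119, 42798), (1014911, 117, 858165), (752767, 99, 43358),
  (998527, 117, 342384), (736383, 101, 559475), (605311, 93, 559475), (990335, 119, 1417990),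
  (728191, 111, 559475), (597119, 102, 559475), (531583, 103, 649985), (7295, 110, 342384),
  (601215, 45, 51926), (593023, 73, 137942), (527487, 84, 649985), (3199, 89, 342384),
  (525439, 65, 281330), (1151, 70, 342384), (524415, 14, 153230), (127, 27, 1455174),
  (1047743, 110, 1579221), (1014975, 99, 1579221), (998591, 100, 1579221), (994495, 92, 1579221),
  (863423, 49, 280434), (601279, 44, 280434), (76991, 31, 342384), (11455, 52, 342384),
  (3263, 51, 342384), (1215, 30, 342384), (191, 3, 1455174), (1047615, 112, 289002),
  (1014847, 101, 289002), (998463, 106, 1589973), (990271, 113, 1589973), (994367, 97, 1589973),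
  (863295, 50, 280434), (601151, 43, 215761), (986175, 107, 1589973), (855103, 69, 280434),
  (592959, 63, 158417), (527423, 63, 649985), (3135, 69, 342384), (525375, 43, 736001),
  (1087, 50, 342384), (524351, 7, 645169), (63, 16, 1455174), (1047583, 104, 289002),
  (1014815, 93, 289002), (998431, 98, 281834), (990239, 108, 281834), (994335, 88, 1590869),
  (863263, 30, 280434), (986143, 97, 1389318), (855071, 51, 280434), (984095, 92, 1382150),
  (853023, 52, 280434), (787487, 31, 280434), (525343, 44, 342384), (1055, 49, 342384),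
  (786463, 3, 1425494), (524319, 9, 153230), (31, 17, 1455174), (1047567, 67, 1590925),
  (1014799, 45, 1590925), (998415, 46, 1590925), (990223, 68, 1590925), (994319, 28, 1590925),
  (986127, 47, 1590925), (984079, 48, 1590925), (983055, 29, 1590925), (917519, 4, 1590925),
  (786447, 0, 581917), (524303, 0, 1073821), (15, 4, 1615621), (1048567, 120, 289506),
  (524279, 115, 289506), (262135, 111, 289506), (131063, 114, 285922), (65527, 116, 342384),
  (126967, 108, 342384), (61431, 113, 1127238), (110583, 70, 284466), (45047, 89, 284466),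
  (77815, 65, 342384), (12279, 84, 190673), (4087, 73, 629062), (2039, 45, 571718),
  (1015, 14, 641550), (1048503, 119, 1508052), (524215, 111, 42854), (1044407, 119, 219345),
  (520119, 114, 46438), (389047, 108, 219345), (126903, 107, 342384), (61367, 113, 342384),
  (372663, 70, 47894), (110519, 87, 277298), (44983, 96, 169750), (77751, 64, 342384),
  (12215, 82, 190673), (4023, 74, 629062), (1975, 46, 571718), (951, 15, 641550),
  (1048247, 110, 288554), (1044151, 112, 1578773), (1027767, 104, 219345), (896695, 67, 276850),
  (372407, 65, 219345), (110263, 64, 219345), (44727, 85, 190673), (77495, 38, 342384),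
  (11959, 58, 190673), (3767, 56, 629062), (1719, 28, 571718), (695, 3, 641550),
  (1047735, 103, 219345), (1043639, 102, 219345), (1027255, 93, 219345), (896183, 57, 47446),
  (994487, 92, 219345), (863415, 54, 219345), (601271, 31, 219345), (76983, 29, 342384),
  (11447, 48, 342384), (3255, 47, 342384), (1207, 28, 342384), (183, 4, 342384),
  (1047607, 102, 42798), (1043511, 109, 215761), (1027127, 98, 215761), (896055, 53, 47446),
  (994359, 97, 215761), (863287, 66, 276850), (601143, 41, 215761), (986167, 108, 1389318),
  (855095, 86, 137046), (592951, 60, 158417), (527415, 62, 649985), (3127, 68, 342384),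
  (525367, 42, 736001), (1079, 46, 342384), (524343, 6, 153265), (55, 17, 342384),
  (1047575, 93, 42798), (1043479, 98, 46382), (1027095, 88, 1525258), (896023, 30, 47446),
  (994327, 88, 342384), (863255, 40, 276850), (986135, 98, 1389318), (855063, 59, 137046),
  (984087, 93, 1382150), (853015, 61, 694022), (787479, 41, 276850), (525335, 43, 276850),
  (1047, 45, 342384), (786455, 5, 146062), (524311, 10, 153230), (23, 16, 342384),
  (1047559, 57, 214697), (1043463, 53, 214697), (1027079, 30, 214697), (994311, 28, 214697),
  (986119, 56, 157353), (984071, 58, 1382150), (983047, 38, 1590925), (917511, 3, 144753),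
  (786439, 2, 349958), (524295, 2, 153230), (7, 3, 342384), (1048563, 119, 289506),
  (524275, 112, 42854), (262131, 102, 289506), (131059, 109, 342384), (65523, 114, 342384),
  (126963, 98, 342384), (61427, 106, 1127238), (110579, 53, 284466), (45043, 71, 284466),
  (59379, 100, 1120070), (42995, 72, 284466), (34803, 54, 284466), (2035, 49, 571718),
  (33779, 15, 1167446), (1011, 15, 1155630), (1048499, 117, 288610), (524211, 101, 42854),
  (1044403, 117, 218897), (520115, 106, 569716), (389043, 97, 569716), (126899, 97, 342384),
  (61363, 106, 342384), (372659, 50, 47894), (110515, 66, 55062), (44979, 79, 169750),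
  (59315, 101, 1120070), (42931, 79, 661318), (34739, 66, 575302), (1971, 50, 571718),
  (33715, 18, 670222), (947, 18, 1455174), (1048243, 99, 288554), (1044147, 101, 1578773),
  (1027763, 93, 1578773), (896691, 45, 276850), (372403, 43, 342384), (110259, 41, 342384),
  (44723, 61, 169750), (42675, 59, 661318), (34483, 40, 342384), (1715, 30, 571718),
  (33459, 5, 670222), (691, 5, 1455174), (1048467, 118, 1754760), (524179, 100, 42854),
  (1044371, 117, 1754760), (520083, 106, 46438), (389011, 98, 569716), (372627, 46, 47894),
  (1042323, 119, 679105), (518035, 114, 569716), (386963, 109, 679105), (321427, 102, 682689),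
  (59283, 112, 1120070), (370579, 74, 105238), (305043, 82, 682689), (42899, 96, 661318),
  (296851, 64, 277298), (34707, 87, 342384), (1939, 70, 571718), (295827, 15, 120974),
  (33683, 33, 178318), (915, 32, 1455174), (1048211, 100, 288554), (1044115, 106, 277802),
  (1027731, 98, 1585941), (896659, 46, 276850), (372371, 42, 342384), (1042067, 113, 277802),
  (1025683, 108, 1585941), (894611, 68, 276850), (370323, 62, 125713), (304787, 60, 682689),
  (42643, 86, 661318), (296595, 41, 740033), (34451, 66, 342384), (1683, 53, 571718),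
  (295571, 6, 677425), (33427, 22, 178318), (659, 19, 1455174), (1048083, 92, 288554),
  (1043987, 97, 277802), (1027603, 88, 706433), (896531, 28, 276850), (1041939, 107, 707777),
  (1025555, 97, 707777), (894483, 47, 276850), (1017363, 92, 714945), (886291, 48, 276850),
  (820755, 29, 743617), (296467, 31, 743617), (34323, 54, 743617), (1555, 57, 571718),
  (819731, 4, 706097), (295443, 8, 1661121), (33299, 23, 178318), (531, 20, 1455174),
  (1047571, 92, 42798), (1043475, 97, 46382), (1027091, 88, 1754760), (896019, 28, 47446),
  (1041427, 108, 707777), (1025043, 98, 707777), (893971, 56, 104790), (1016851, 93, 714945),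
  (885779, 58, 714945), (820243, 38, 743617), (984083, 104, 714945), (853011, 85, 714945),
  (787475, 64, 743617), (525331, 65, 743617), (1043, 67, 342384), (819219, 3, 117390),
  (786451, 21, 146062), (524307, 24, 117425), (19, 27, 342384), (1048067, 49, 1587341),
  (1043971, 50, 1587341), (1027587, 30, 1587341), (1041923, 69, 1587341), (1025539, 51, 1587341),
  (1017347, 52, 1587341), (1016323, 31, 1587341), (950787, 3, 668073), (819715, 0, 1747137),
  (295427, 1, 342384), (33283, 8, 178318), (515, 6, 1455174), (1047555, 54, 42798),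
  (1043459, 66, 1590925), (1027075, 40, 211113), (1041411, 86, 125097), (1025027, 59, 125097),
  (1016835, 61, 1403073), (984067, 85, 1382150), (1015811, 41, 1590925), (950275, 5, 116081),
  (819203, 2, 1747137), (983043, 64, 1353478), (917507, 21, 116081), (786435, 11, 1747137),
  (524291, 12, 1747137), (3, 15, 342384), (1048561, 110, 1509004), (524273, 90, 1738380),
  (262129, 73, 1738380), (131057, 74, 1738380), (65521, 91, 1738380), (126961, 56, 1738380),
  (61425, 75, 1738380), (59377, 76, 1738380), (58353, 48, 1091398), (50161, 17, 1128974),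
  (33777, 9, 345926), (1009, 3, 1155630), (1048497, 99, 1509004), (524209, 77, 218785),
  (1044401, 99, 218785), (520113, 71, 218785), (389041, 51, 218785), (126897, 47, 218785),
  (61361, 75, 190113), (59313, 78, 1738380), (58289, 58, 1738380), (50097, 16, 177457),
  (33713, 10, 345926), (945, 5, 342342), (1048465, 100, 1509004), (524177, 72, 42854),
  (1044369, 101, 1509004), (520081, 79, 1738380), (389009, 59, 1738380), (1042321, 111, 1509004),
  (518033, 94, 1738380), (386961, 80, 125601), (321425, 81, 1738380), (59281, 95, 1738380),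
  (320401, 60, 1738380), (58257, 82, 1738380), (312209, 19, 120113), (50065, 34, 120113),
  (295825, 12, 342384), (33681, 25, 345926), (913, 19, 342342), (1048449, 92, 1509004),
  (524161, 52, 42854), (1044353, 93, 1509004), (520065, 61, 1738380), (1042305, 102, 1509004),
  (518017, 81, 103782), (1041281, 103, 1509004), (516993, 83, 1738380), (451457, 62, 1738380),
  (320385, 63, 1738380), (58241, 84, 1738380), (443265, 20, 109326), (312193, 25, 109361),
  (50049, 39, 403270), (295809, 11, 342384), (33665, 25, 342384), (897, 20, 342342),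
  (1048321, 49, 210217), (1044225, 45, 210217), (1042177, 73, 124201), (1041153, 84, 1447110),
  (1032961, 65, 1586445), (967425, 14, 626017), (443137, 13, 342384), (312065, 12, 120078),
  (49921, 24, 403270), (295681, 2, 342384), (33537, 10, 342384), (769, 6, 342342),
  (1048065, 44, 210217), (1043969, 43, 46382), (1041921, 63, 103726), (1040897, 63, 1447110),
  (1032705, 43, 1361094), (967169, 7, 1451534), (1016321, 44, 1754760), (950785, 9, 108913),
  (819713, 0, 108913), (295425, 0, 342384), (33281, 9, 342384), (513, 7, 1455174),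
  (1047553, 31, 42798), (1043457, 41, 46382), (1041409, 60, 103726), (1040385, 62, 1447110),
  (1032193, 42, 1590925), (966657, 6, 108878), (1015809, 43, 1590925), (950273, 10, 108913),
  (819201, 2, 108913), (983041, 65, 1353478), (917505, 24, 144718), (786433, 12, 349958),
  (524289, 13, 108913), (1, 14, 859488), (1048574, 120, 219289), (524286, 116, 219289),
  (262142, 113, 1265803), (131070, 113, 219289), (65534, 116, 1265803), (229374, 89, 43806),
  (98302, 96, 330547), (32766, 105, 330547), (81918, 85, 342384), (16382, 95, 190617),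
  (8190, 91, 858438), (7166, 68, 829766), (5118, 27, 870926), (1022, 14, 342342),
  (1048062, 115, 219289), (1015294, 112, 219289), (753150, 90, 330099), (228862, 84, 342384),
  (97790, 82, 342384), (32254, 95, 342384), (81406, 58, 342384), (15870, 78, 342384),
  (7678, 75, 858438), (6654, 47, 829766), (4606, 16, 870926), (510, 7, 1455216),
  (1047806, 111, 219289), (1015038, 101, 219289), (752894, 77, 43358), (998654, 100, 219289),
  (736510, 72, 219289), (605438, 52, 219289), (81150, 48, 219289), (15614, 76, 342384),
  (7422, 75, 342384), (6398, 56, 342384), (4350, 17, 181489), (254, 6, 342384),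
  (1047678, 114, 215705), (1014910, 106, 1523851), (752766, 71, 43358), (998526, 106, 215705),
  (736382, 79, 330099), (605310, 61, 330099), (990334, 114, 1523851), (728190, 94, 330099),
  (597118, 81, 158361), (531582, 83, 879361), (7294, 91, 342384), (530558, 62, 330099),
  (6270, 74, 342384), (528510, 20, 152817), (4222, 35, 342384), (524414, 13, 1754760),
  (126, 20, 342384), (1047662, 108, 42798), (1014894, 97, 1523851), (752750, 51, 43358),
  (998510, 98, 1523851), (736366, 59, 330099), (990318, 109, 1523851), (728174, 80, 330099),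
  (989294, 102, 1414406), (727150, 81, 330099), (661614, 60, 330099), (530542, 63, 330099),
  (6254, 73, 342384), (659566, 19, 142030), (528494, 25, 152782), (4206, 34, 342384),
  (524398, 12, 142065), (110, 19, 342384), (1047630, 70, 214249), (1014862, 50, 214249),
  (998478, 46, 214249), (990286, 74, 156905), (989262, 82, 1414406), (987214, 64, 1590477),
  (921678, 15, 141169), (659534, 12, 1754760), (528462, 11, 1754760), (4174, 21, 342384),
  (524366, 2, 1754760), (78, 5, 342384), (1047566, 65, 42798), (1014798, 43, 1754760),
  (998414, 42, 1754760), (990222, 62, 136430), (989198, 60, 1414406), (987150, 41, 1357062),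
  (921614, 6, 1419278), (983054, 31, 1353478), (917518, 8, 435974), (786446, 1, 1754760),
  (524302, 0, 1754760), (14, 3, 1156008), (1048572, 119, 1237131), (524284, 113, 827764),
  (262140, 107, 1265803), (131068, 108, 1265803), (65532, 114, 1155910), (229372, 69, 43806),
  (98300, 86, 330547), (32764, 94, 169246), (64508, 111, 1152326), (31740, 94, 922950),
  (23548, 86, 342384), (7164, 69, 829766), (21500, 32, 928270), (5116, 33, 371014),
  (1020, 15, 342342), (1048060, 111, 1578269), (1015292, 102, 1578269), (753148, 73, 330099),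
  (228860, 63, 342384), (97788, 60, 342384), (32252, 81, 342384), (31228, 80, 342384),
  (23036, 59, 342384), (6652, 51, 829766), (20988, 19, 928270), (4604, 22, 371014),
  (508, 6, 1455216), (1048556, 119, 1754760), (524268, 113, 42854), (262124, 108, 827764),
  (229356, 68, 43806), (1047532, 120, 1754760), (523244, 116, 941185), (261100, 114, 941185),
  (195564, 111, 944769), (64492, 115, 944769), (228332, 91, 72478), (162796, 95, 944769),
  (31724, 105, 342384), (154604, 85, 330547), (23532, 96, 342384), (7148, 89, 829766),
  (152556, 27, 88270), (21484, 55, 174286), (5100, 55, 371014), (1004, 27, 342342),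
  (1048044, 114, 1581853), (1015276, 109, 1754760), (753132, 74, 330099), (228844, 62, 342384),
  (1047020, 116, 1754760), (1014252, 114, 1754760), (752108, 91, 330099), (227820, 83, 342384),
  (162284, 81, 944769), (31212, 94, 342384), (154092, 61, 342384), (23020, 79, 342384),
  (6636, 71, 829766), (152044, 20, 939057), (20972, 36, 174286), (4588, 36, 371014),
  (492, 20, 1455216), (1047916, 108, 1754760), (1015148, 98, 1754760), (753004, 56, 330099),
  (1046892, 113, 969857), (1014124, 106, 969857), (751980, 75, 330099), (1005932, 100, 977025),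
  (743788, 76, 977025), (678252, 48, 1005697), (153964, 52, 1005697), (22892, 72, 1005697),
  (6508, 77, 829766), (676204, 17, 967729), (151916, 23, 1693825), (20844, 37, 342384),
  (4460, 36, 342384), (364, 19, 1455216), (1047660, 107, 1754760), (1014892, 97, 1754760),
  (752748, 47, 43358), (1046636, 113, 1754760), (1013868, 106, 1754760), (751724, 75, 72030),
  (1005676, 101, 977025), (743532, 78, 977025), (677996, 58, 330099), (989292, 112, 977025),
  (727148, 95, 330099), (661612, 82, 330099), (530540, 84, 330099), (6252, 90, 342384),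
  (675948, 16, 84686), (659564, 34, 142030), (528492, 39, 1693825), (4204, 55, 342384),
  (524396, 24, 1693825), (108, 32, 1455216), (1047884, 70, 1583309), (1015116, 53, 1583309),
  (1046860, 89, 1583309), (1014092, 71, 1583309), (1005900, 72, 1583309), (1003852, 54, 1583309),
  (938316, 15, 926121), (676172, 9, 1751169), (151884, 8, 342384), (20812, 23, 342384),
  (4428, 22, 342384), (332, 5, 1455216), (1047628, 87, 207081), (1014860, 66, 207081),
  (1046604, 96, 92393), (1013836, 79, 92393), (1005644, 79, 1435777), (989260, 96, 1435777),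
  (1003596, 66, 1521793), (938060, 18, 1426481), (675916, 10, 1751169), (987212, 87, 1754760),
  (921676, 33, 83825), (659532, 25, 1751169), (528460, 25, 1754760), (4172, 33, 342384),
  (524364, 10, 1754760), (76, 18, 1455216), (1047564, 64, 42798), (1014796, 41, 1754760),
  (1046540, 85, 71470), (1013772, 61, 92393), (1005580, 59, 1435777), (989196, 86, 1435777),
  (1003532, 40, 1754760), (937996, 5, 1426481), (987148, 66, 1754760), (921612, 22, 83825),
  (983052, 54, 1353478), (917516, 23, 83825), (786444, 8, 83825), (524300, 9, 1754760),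
  (12, 15, 1156008), (1048568, 110, 218337), (524280, 89, 218337), (262136, 69, 218337),
  (131064, 68, 218337), (65528, 91, 189665), (64504, 95, 1152326), (62456, 85, 1737932),
  (54264, 27, 173873), (21496, 24, 342384), (5112, 21, 371014), (1016, 3, 342342),
  (1048552, 112, 1508556), (524264, 96, 1737932), (262120, 86, 1737932), (1047528, 115, 1754760),
  (523240, 105, 92897), (261096, 94, 92897), (195560, 94, 1174145), (64488, 105, 1754760),
  (193512, 86, 1754760), (62440, 96, 1754760), (185320, 32, 1168433), (54248, 55, 87857),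
  (152552, 24, 1754760), (21480, 39, 1754760), (5096, 34, 371014), (1000, 16, 342342),
  (1048520, 104, 1754760), (524232, 85, 1754760), (1047496, 112, 1754760), (523208, 95, 71526),
  (1045448, 110, 1238657), (521160, 91, 1238657), (455624, 68, 1267329), (193480, 69, 1267329),
  (62408, 89, 1267329), (447432, 27, 1225777), (185288, 33, 1726081), (54216, 55, 1726081),
  (152520, 21, 1726081), (21448, 34, 1726081), (5064, 35, 1726081), (968, 17, 342342),
  (1048392, 67, 206633), (1047368, 90, 91945), (1045320, 90, 1468033), (1037128, 67, 1525377),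
  (971592, 26, 1754753), (447304, 14, 1754753), (185160, 15, 1754753), (54088, 27, 1754753),
  (152392, 3, 1754753), (21320, 16, 1754753), (4936, 17, 1754753), (840, 4, 1754753),
  (1047880, 65, 1754760), (1046856, 84, 71470), (1044808, 73, 1468033), (1036616, 45, 1525377),
  (971080, 14, 941073), (1003848, 49, 1525377), (938312, 15, 941073), (676168, 3, 941073),
  (151880, 4, 641928), (20808, 17, 641928), (4424, 16, 641928), (328, 3, 641928),
  (1047624, 64, 1754760), (1046600, 82, 71470), (1044552, 74, 1468033), (1036360, 46, 1525377),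
  (970824, 15, 1455153), (1003592, 50, 1525377), (938056, 18, 1754753), (675912, 5, 1754753),
  (987208, 70, 1525377), (921672, 32, 1754753), (659528, 19, 1754753), (528456, 20, 1754753),
  (4168, 27, 641928), (524360, 6, 1754753), (72, 15, 641928), (1047560, 38, 1754760),
  (1046536, 58, 71470), (1044488, 56, 1468033), (1036296, 28, 1525377), (970760, 3, 1455153),
  (1003528, 30, 1525377), (937992, 5, 641921), (987144, 53, 1525377), (921608, 19, 641921),
  (983048, 57, 1525377), (917512, 20, 641921), (786440, 6, 641921), (524296, 7, 1754753),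
  (8, 14, 641928), (1048560, 103, 1754760), (524272, 84, 1754760), (262128, 63, 1754760),
  (131056, 62, 1754760), (65520, 83, 1754760), (64496, 81, 1152326), (62448, 61, 1754760),
  (54256, 20, 1157646), (58352, 52, 1091398), (50160, 23, 403270), (33776, 8, 1754760),
  (1008, 4, 1455216), (1048544, 102, 1754760), (524256, 82, 1754760), (262112, 60, 1754760),
  (1047520, 111, 1754760), (523232, 95, 1754760), (261088, 81, 1754760), (195552, 80, 1754760),
  (64480, 94, 1754760), (193504, 59, 1754760), (62432, 79, 1754760), (185312, 19, 1168433),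
  (54240, 36, 87857), (58336, 72, 1091398), (50144, 37, 1754760), (33760, 23, 1754760),
  (992, 17, 1455216), (1048512, 93, 1754760), (524224, 58, 1754760), (1047488, 101, 1754760),
  (523200, 78, 1754760), (1045440, 99, 1238657), (521152, 75, 1238657), (455616, 47, 1267329),
  (193472, 51, 1267329), (62400, 71, 1267329), (447424, 16, 1225777), (185280, 22, 1726081),
  (54208, 36, 1726081), (58304, 77, 1267329), (50112, 36, 1754760), (33728, 22, 1754760),
  (960, 16, 1455216), (1048384, 57, 1582861), (1047360, 77, 1582861), (1045312, 77, 1754760),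
  (1037120, 57, 1754760), (971584, 14, 641921), (447296, 7, 1754760), (185152, 6, 641928),
  (54080, 20, 641928), (49984, 19, 641928), (33600, 5, 641928), (832, 3, 1455216),
  (1048448, 92, 1754760), (524160, 48, 42854), (1047424, 100, 1754760), (523136, 76, 1754760),
  (1045376, 99, 1754760), (521088, 75, 1754760), (455552, 56, 1754760), (447360, 17, 80654),
  (1041280, 110, 1754760), (516992, 91, 1754760), (451456, 74, 1754760), (320384, 73, 1754760),
  (58240, 90, 1754760), (443264, 35, 1754760), (312192, 34, 1754760), (50048, 55, 1754760),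
  (295808, 21, 1754760), (33664, 33, 1754760), (896, 27, 1455216), (1048320, 54, 1754760),
  (1047296, 72, 1754760), (1045248, 71, 1754760), (1037056, 53, 1754760), (971520, 15, 641921),
  (447232, 6, 1754760), (1041152, 89, 1754760), (1032960, 70, 1754760), (967424, 27, 641921),
  (443136, 20, 1754760), (312064, 19, 1754760), (49920, 32, 1754760), (295680, 5, 1754760),
  (33536, 18, 1754760), (768, 15, 1455216), (1048064, 31, 1754760), (1047040, 52, 1754760),
  (1044992, 51, 1754760), (1036800, 30, 1754760), (971264, 3, 641921), (1040896, 69, 1754760),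
  (1032704, 50, 1754760), (967168, 16, 641921), (1016320, 49, 1754760), (950784, 17, 641921),
  (819712, 4, 641921), (295424, 3, 941136), (33280, 15, 941136), (512, 14, 941136),
  (1047552, 29, 1754760), (1046528, 48, 1754760), (1044480, 47, 1754760), (1036288, 28, 1754760),
  (970752, 4, 1754760), (1040384, 68, 1754760), (1032192, 46, 1754760), (966656, 17, 1754760),
  (1015808, 45, 1754760), (950272, 16, 1754760), (819200, 3, 1754760), (983040, 67, 1754760),
  (917504, 27, 1754760), (786432, 15, 1754760), (524288, 14, 1754760), (0, 26, 1754760)]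

noncomputable def dfs7 : Bool :=
  allB fun s123 =>
  allB fun s124 =>
  allB fun s134 =>
  allB fun s234 => imp (mono s123 s124 s134 s234) <|
  allB fun s125 =>
  allB fun s135 =>
  allB fun s235 => imp (mono s123 s125 s135 s235) <|
  allB fun s145 =>
  allB fun s245 => imp (mono s124 s125 s145 s245) <|
  allB fun s345 => imp (mono s134 s135 s145 s345) <| imp (mono s234 s235 s245 s345) <|
  allB fun s126 =>
  allB fun s136 =>
  allB fun s236 => imp (mono s123 s126 s136 s236) <|
  allB fun s146 =>
  allB fun s246 => imp (mono s124 s126 s146 s246) <|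
  allB fun s346 => imp (mono s134 s136 s146 s346) <| imp (mono s234 s236 s246 s346) <|
  allB fun s156 =>
  allB fun s256 => imp (mono s125 s126 s156 s256) <|
  allB fun s356 => imp (mono s135 s136 s156 s356) <| imp (mono s235 s236 s256 s356) <|
  allB fun s456 => imp (mono s145 s146 s156 s456) <| imp (mono s245 s246 s256 s456) <| imp (mono s345 s346 s356 s456) <|
  force (enc [s123, s124, s134, s234, s125, s135, s235, s145, s245, s345, s126, s136, s236, s146, s246, s346, s156, s256, s356, s456]) fun v =>
    anyL certs7 fun e => Nat.beq e.1 v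

theorem dfs7_ok : dfs7 = true := by decide +kernel

theorem certs7_c0 : allL ((certs7.drop 0).take 100) certOK = true := by decide +kernel

theorem certs7_c1 : allL ((certs7.drop 100).take 100) certOK = true := by decide +kernel

theorem certs7_c2 : allL ((certs7.drop 200).take 100) certOK = true := by decide +kernel

theorem certs7_c3 : allL ((certs7.drop 300).take 100) certOK = true := by decide +kernel

theorem certs7_c4 : allL ((certs7.drop 400).take 100) certOK = true := by decide +kernel

theorem certs7_c5 : allL ((certs7.drop 500).take 100) certOK = true := by decide +kernel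

theorem certs7_c6 : allL ((certs7.drop 600).take 100) certOK = true := by decide +kernel

theorem certs7_c7 : allL ((certs7.drop 700).take 100) certOK = true := by decide +kernel

theorem certs7_c8 : allL ((certs7.drop 800).take 100) certOK = true := by decide +kernel

theorem certs7_c9 : allL (certs7.drop 900) certOK = true := by decide +kernel

theorem certs7_ok : allL certs7 certOK = true :=
  allL_intro (l := certs7.drop 0) (drop_step (c := 0) (n := 100) (m := 100) rfl certs7_c0
    (drop_step (c := 100) (n := 100) (m := 200) rfl certs7_c1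
    (drop_step (c := 200) (n := 100) (m := 300) rfl certs7_c2
    (drop_step (c := 300) (n := 100) (m := 400) rfl certs7_c3
    (drop_step (c := 400) (n := 100) (m := 500) rfl certs7_c4
    (drop_step (c := 500) (n := 100) (m := 600) rfl certs7_c5
    (drop_step (c := 600) (n := 100) (m := 700) rfl certs7_c6
    (drop_step (c := 700) (n := 100) (m := 800) rfl certs7_c7
    (drop_step (c := 800) (n := 100) (m := 900) rfl certs7_c8
    (fun a ha => allL_elim certs7_c9 ha))))))))))

theorem dfs7_sound (S : ℕ → ℕ → ℕ → Bool) (h0 : ∀ b c, 0 < b → b < c → c < 7 → S 0 b c = true)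
    (hm : ∀ x a b c, 0 < x → x < a → a < b → b < c → c < 7 →
      mono (S x a b) (S x a c) (S x b c) (S a b c) = true) :
    ∃ e ∈ certs7, ∀ a b c, a < b → b < c → c < 7 → sg e.1 a b c = S a b c := by
  have e := dfs7_ok
  unfold dfs7 at e
  replace e := allB_elim e (S 1 2 3)
  replace e := allB_elim e (S 1 2 4)
  replace e := allB_elim e (S 1 3 4)
  replace e := allB_elim e (S 2 3 4)
  replace e := imp_elim e (hm 1 2 3 4 (by decide) (by decide) (by decide) (by decide) (by decide))
  replace e := allB_elim e (S 1 2 5)
  replace e := allB_elim e (S 1 3 5)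
  replace e := allB_elim e (S 2 3 5)
  replace e := imp_elim e (hm 1 2 3 5 (by decide) (by decide) (by decide) (by decide) (by decide))
  replace e := allB_elim e (S 1 4 5)
  replace e := allB_elim e (S 2 4 5)
  replace e := imp_elim e (hm 1 2 4 5 (by decide) (by decide) (by decide) (by decide) (by decide))
  replace e := allB_elim e (S 3 4 5)
  replace e := imp_elim e (hm 1 3 4 5 (by decide) (by decide) (by decide) (by decide) (by decide))
  replace e := imp_elim e (hm 2 3 4 5 (by decide) (by decide) (by decide) (by decide) (by decide))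
  replace e := allB_elim e (S 1 2 6)
  replace e := allB_elim e (S 1 3 6)
  replace e := allB_elim e (S 2 3 6)
  replace e := imp_elim e (hm 1 2 3 6 (by decide) (by decide) (by decide) (by decide) (by decide))
  replace e := allB_elim e (S 1 4 6)
  replace e := allB_elim e (S 2 4 6)
  replace e := imp_elim e (hm 1 2 4 6 (by decide) (by decide) (by decide) (by decide) (by decide))
  replace e := allB_elim e (S 3 4 6)
  replace e := imp_elim e (hm 1 3 4 6 (by decide) (by decide) (by decide) (by decide) (by decide))
  replace e := imp_elim e (hm 2 3 4 6 (by decide) (by decide) (by decide) (by decide) (by decide))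
  replace e := allB_elim e (S 1 5 6)
  replace e := allB_elim e (S 2 5 6)
  replace e := imp_elim e (hm 1 2 5 6 (by decide) (by decide) (by decide) (by decide) (by decide))
  replace e := allB_elim e (S 3 5 6)
  replace e := imp_elim e (hm 1 3 5 6 (by decide) (by decide) (by decide) (by decide) (by decide))
  replace e := imp_elim e (hm 2 3 5 6 (by decide) (by decide) (by decide) (by decide) (by decide))
  replace e := allB_elim e (S 4 5 6)
  replace e := imp_elim e (hm 1 4 5 6 (by decide) (by decide) (by decide) (by decide) (by decide))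
  replace e := imp_elim e (hm 2 4 5 6 (by decide) (by decide) (by decide) (by decide) (by decide))
  replace e := imp_elim e (hm 3 4 5 6 (by decide) (by decide) (by decide) (by decide) (by decide))
  rw [force_eq] at e
  obtain ⟨x, hx, hx2⟩ := anyL_elim e
  refine ⟨x, hx, ?_⟩
  rw [Nat.eq_of_beq_eq_true hx2]
  intro a b c hab hbc hc
  interval_cases c <;> interval_cases b <;> interval_cases a <;>
    first
    | exact (h0 _ _ (by decide) (by decide) (by decide)).symm
    | exact (tb_enc _ _).trans rfl

theorem chi_eq {v : ℕ} {Q : ℕ → ℝ × ℝ}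
    (hD : ∀ a < 7, ∀ b < 7, ∀ c < 7, a ≠ b → a ≠ c → b ≠ c → D (Q a) (Q b) (Q c) ≠ 0)
    (hs : ∀ a b c, a < b → b < c → c < 7 → sg v a b c = decide (0 < D (Q a) (Q b) (Q c)))
    {a b c : ℕ} (ha : a < 7) (hb : b < 7) (hc : c < 7) (hab : a ≠ b) (hac : a ≠ c) (hbc : b ≠ c) :
    chi v a b c = decide (0 < D (Q a) (Q b) (Q c)) := by
  have hne := hD a ha b hb c hc hab hac hbc
  have neg : ∀ {y : ℝ}, y = -D (Q a) (Q b) (Q c) →
      (!decide (0 < y)) = decide (0 < D (Q a) (Q b) (Q c)) := by
    intro y hy
    rcases lt_or_gt_of_ne hne with h | h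
    · have h1 : 0 < y := by linarith
      have h2 : ¬ 0 < D (Q a) (Q b) (Q c) := by linarith
      simp [h1, h2]
    · have h1 : ¬ 0 < y := by linarith
      simp [h1, h]
  have bt : ∀ {x y : ℕ}, x < y → Nat.blt x y = true := fun h => by simpa using h
  have bf : ∀ {x y : ℕ}, ¬ x < y → Nat.blt x y = false := fun h => by
    rw [Bool.eq_false_iff]
    simpa using h
  unfold chi
  by_cases h1 : a < b
  · rw [bt h1, cond_true]
    by_cases h2 : b < c
    · rw [bt h2, cond_true, hs _ _ _ h1 h2 hc]
    · rw [bf h2, cond_false]
      by_cases h3 : a < c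
      · rw [bt h3, cond_true, hs _ _ _ h3 (by omega) hb]
        exact neg (by unfold D; ring)
      · rw [bf h3, cond_false, hs _ _ _ (by omega) h1 hb]
        congr 2
        unfold D
        ring
  · rw [bf h1, cond_false]
    by_cases h3 : a < c
    · rw [bt h3, cond_true, hs _ _ _ (by omega) h3 hc]
      exact neg (by unfold D; ring)
    · rw [bf h3, cond_false]
      by_cases h2 : b < c
      · rw [bt h2, cond_true, hs _ _ _ h2 (by omega) ha]
        congr 2
        unfold D
        ring
      · rw [bf h2, cond_false, hs _ _ _ (by omega) (by omega) ha]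
        exact neg (by unfold D; ring)

theorem mono_of {s1 s2 s3 s4 : Prop} [Decidable s1] [Decidable s2] [Decidable s3] [Decidable s4]
    (h1 : (s1 ↔ s3) → (s2 ↔ s1)) (h2 : (s2 ↔ s4) → (s3 ↔ s2)) (h3 : (s1 ↔ s4) → (s2 ↔ s1)) :
    mono (decide s1) (decide s2) (decide s3) (decide s4) = true := by
  by_cases e1 : s1 <;> by_cases e2 : s2 <;> by_cases e3 : s3 <;> by_cases e4 : s4 <;>
    simp_all [mono]

theorem bool_key {s1 s2 s3 s4 : Prop} [Decidable s1] [Decidable s2] [Decidable s3] [Decidable s4]
    {z : Bool} (h : (!(((decide s1 ^^ decide s2) && (decide s3 ^^ decide s4)) ^^ z)) = true) :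
    (¬ (s1 ↔ s2) ∧ ¬ (s3 ↔ s4)) ↔ z = true := by
  by_cases e1 : s1 <;> by_cases e2 : s2 <;> by_cases e3 : s3 <;> by_cases e4 : s4 <;>
    cases z <;> simp_all

theorem cross_symm {n : ℕ} {P : Fin n → ℝ × ℝ} {a b c d : Fin n} (h : Cross P a b c d) :
    Cross P b a c d ∧ Cross P c d a b := by
  obtain ⟨h1, h2, h3, h4, h5, h6, h7⟩ := h
  refine ⟨⟨h1.symm, h2, h5, h6, h3, h4, ?_⟩, ⟨h2, h1, h3.symm, h5.symm, h4.symm, h6.symm, ?_⟩⟩
  · rwa [segment_symm]
  · rwa [Set.inter_comm]

theorem classify (P : Fin 7 → ℝ × ℝ) (hP : GenPos P) : ∃ h < 122, Rep P (nth codes7 h) := by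
  classical
  have hD0 : ∀ a b c, a ≠ b → a ≠ c → b ≠ c → D (P a) (P b) (P c) ≠ 0 :=
    fun a b c h1 h2 h3 => hP.D_ne h1 h2 h3
  obtain ⟨σ, hσ⟩ := exists_sort P hP.1 hD0
  let Q : ℕ → ℝ × ℝ := fun i => if h : i < 7 then P (σ ⟨i, h⟩) else 0
  have hQ : ∀ i : Fin 7, Q i = P (σ i) := fun i => by simp [Q]
  have hQ' : ∀ i (h : i < 7), Q i = P (σ ⟨i, h⟩) := fun i h => hQ ⟨i, h⟩
  have hD : ∀ a < 7, ∀ b < 7, ∀ c < 7, a ≠ b → a ≠ c → b ≠ c → D (Q a) (Q b) (Q c) ≠ 0 := by
    intro a ha b hb c hc h1 h2 h3
    rw [hQ' a ha, hQ' b hb, hQ' c hc]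
    exact hD0 _ _ _ (fun e => h1 (congrArg Fin.val (σ.injective e)))
      (fun e => h2 (congrArg Fin.val (σ.injective e)))
      (fun e => h3 (congrArg Fin.val (σ.injective e)))
  have hpos : ∀ b c, 0 < b → b < c → c < 7 → 0 < D (Q 0) (Q b) (Q c) := by
    intro b c h1 h2 h3
    rw [hQ' 0 (by omega), hQ' b (by omega), hQ' c h3]
    exact hσ ⟨b, by omega⟩ ⟨c, h3⟩ h1 h2
  obtain ⟨e, he, hs⟩ := dfs7_sound (fun a b c => decide (0 < D (Q a) (Q b) (Q c)))
    (fun b c h1 h2 h3 => decide_eq_true (hpos b c h1 h2 h3)) (by
      intro x a b c h0 h1 h2 h3 h4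
      have n1 := hD x (by omega) a (by omega) b (by omega) (by omega) (by omega) (by omega)
      have n2 := hD x (by omega) a (by omega) c (by omega) (by omega) (by omega) (by omega)
      have n3 := hD x (by omega) b (by omega) c (by omega) (by omega) (by omega) (by omega)
      have n4 := hD a (by omega) b (by omega) c (by omega) (by omega) (by omega) (by omega)
      have p1 := hpos x a h0 h1 (by omega)
      have p2 := hpos x b h0 (by omega) (by omega)
      have p3 := hpos x c h0 (by omega) h4
      have p4 := hpos a b (by omega) h2 (by omega)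
      have p5 := hpos a c (by omega) (by omega) h4
      have p6 := hpos b c (by omega) h3 h4
      exact mono_of (sign_comb n1 n3 p2 p3 p1 (gp1 _)) (sign_comb n2 n4 p5 p6 p3 (gp2 _))
        (sign_comb n1 n4 p4 p5 p1 (gp3 _)))
  have hc := allL_elim certs7_ok he
  unfold certOK at hc
  simp only [force_eq, Bool.and_eq_true] at hc
  obtain ⟨⟨hh, hp⟩, hq⟩ := hc
  have hh' : e.2.1 < 122 := by simpa using hh
  obtain ⟨π, hπ⟩ := perm_of_ok hp
  have htc := allN_elim tc7_ok hh'
  have key : ∀ a b c d : Fin 7, a < b → c < d → a < c → b ≠ c → b ≠ d →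
      (Cross P (σ (π a)) (σ (π b)) (σ (π c)) (σ (π d)) ↔
        bit (nth codes7 e.2.1) a b c d = true) := by
    intro a b c d hab hcd hac hbc hbd
    have had : a < d := hac.trans hcd
    have h1 := skip_elim (skip_elim (allQ_elim hq b.2 d.2 hab hcd hac)
      (fun e => hbc (Fin.ext e))) (fun e => hbd (Fin.ext e))
    rw [← hπ, ← hπ, ← hπ, ← hπ] at h1
    have ne : ∀ {x y : Fin 7}, x ≠ y → (π x : ℕ) ≠ π y :=
      fun h e => h (π.injective (Fin.ext e))
    have ne2 : ∀ {x y : Fin 7}, x ≠ y → σ (π x) ≠ σ (π y) :=
      fun h e => h (π.injective (σ.injective e))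
    unfold crossS at h1
    rw [chi_eq hD hs (π a).2 (π b).2 (π c).2 (ne hab.ne) (ne hac.ne) (ne hbc),
      chi_eq hD hs (π a).2 (π b).2 (π d).2 (ne hab.ne) (ne had.ne) (ne hbd),
      chi_eq hD hs (π c).2 (π d).2 (π a).2 (ne hcd.ne) (ne hac.ne') (ne had.ne'),
      chi_eq hD hs (π c).2 (π d).2 (π b).2 (ne hcd.ne) (ne hbc.symm) (ne hbd.symm),
      hQ, hQ, hQ, hQ] at h1
    rw [cross_iff hD0]
    simp only [ne2 hab.ne, ne2 hcd.ne, ne2 hac.ne, ne2 had.ne, ne2 hbc, ne2 hbd, ne_eq,
      not_false_eq_true, true_and]
    exact bool_key h1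
  refine ⟨e.2.1, hh', π.trans σ, fun a b c d => ⟨?_, ?_⟩⟩
  · revert a b c d
    refine sym_reduce (A := fun a b c d : Fin 7 =>
      Cross P (σ (π a)) (σ (π b)) (σ (π c)) (σ (π d)))
      (B := fun a b c d : Fin 7 => bit (nth codes7 e.2.1) a b c d = true) ?_ ?_ ?_
    · intro a b c d hx
      exact ⟨fun e => hx.1 (by rw [e]), fun e => hx.2.1 (by rw [e]),
        fun e => hx.2.2.1 (by rw [e]), (cross_symm hx).1, (cross_symm hx).2⟩
    · intro a b c d hx
      obtain ⟨_, _, _, _, _, _, e7, e8⟩ := tc_sym htc a.2 b.2 c.2 d.2 hx
      exact ⟨e7, e8⟩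
    · intro a b c d hab hcd hac hx
      exact (key a b c d hab hcd hac (fun e => hx.2.2.2.2.1 (by rw [e]))
        (fun e => hx.2.2.2.2.2.1 (by rw [e]))).1 hx
  · revert a b c d
    refine sym_reduce (B := fun a b c d : Fin 7 =>
      Cross P (σ (π a)) (σ (π b)) (σ (π c)) (σ (π d)))
      (A := fun a b c d : Fin 7 => bit (nth codes7 e.2.1) a b c d = true) ?_ ?_ ?_
    · intro a b c d hx
      obtain ⟨e1, e2, e3, _, _, _, e7, e8⟩ := tc_sym htc a.2 b.2 c.2 d.2 hx
      exact ⟨fun e => e1 (congrArg Fin.val e), fun e => e2 (congrArg Fin.val e),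
        fun e => e3 (congrArg Fin.val e), e7, e8⟩
    · intro a b c d hx
      exact cross_symm hx
    · intro a b c d hab hcd hac hx
      obtain ⟨_, _, _, _, e5, e6, _, _⟩ := tc_sym htc a.2 b.2 c.2 d.2 hx
      exact (key a b c d hab hcd hac (fun e => e5 (congrArg Fin.val e))
        (fun e => e6 (congrArg Fin.val e))).2 hx

end Pool.Agent.Lib.MP_6e0a1a_co
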