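import Mathlib

namespace Pool.Agent.Lib.MP_6e0a1a_co.Ev

/-- The three numbers are in increasing cyclic order. -/
def Cyc (a b c : ℕ) : Prop := (a < b ∧ b < c) ∨ (b < c ∧ c < a) ∨ (c < a ∧ a < b)

/-- The three numbers are consecutive and the middle one is marked. -/
def Flip (s : ℕ → Prop) (a b c : ℕ) : Prop :=
  ∃ m, s (m + 1) ∧ (a = m ∨ b = m ∨ c = m) ∧ (a = m + 1 ∨ b = m + 1 ∨ c = m + 1) ∧
    (a = m + 2 ∨ b = m + 2 ∨ c = m + 2)

/-- Orientation of a triple after the marked points have been pushed in. -/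
def Pos (s : ℕ → Prop) (a b c : ℕ) : Prop := ¬ (Cyc a b c ↔ Flip s a b c)

/-- Crossing of two edges, read from the orientations. -/
def Cr (s : ℕ → Prop) (x y u v : ℕ) : Prop :=
  x ≠ y ∧ u ≠ v ∧ x ≠ u ∧ x ≠ v ∧ y ≠ u ∧ y ≠ v ∧
    ¬ (Pos s x y u ↔ Pos s x y v) ∧ ¬ (Pos s u v x ↔ Pos s u v y)

/-- The pairs separate each other in the cyclic order. -/
def Sep (x y u v : ℕ) : Prop :=
  x ≠ y ∧ u ≠ v ∧ x ≠ u ∧ x ≠ v ∧ y ≠ u ∧ y ≠ v ∧ ¬ (Cyc x y u ↔ Cyc x y v)

theorem cr_iff {s : ℕ → Prop} (hs : ∀ i, s i → ¬ s (i + 1)) (x y u v : ℕ) :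
    Cr s x y u v ↔ Sep x y u v ∧ ¬ Flip s x y u ∧ ¬ Flip s x y v ∧ ¬ Flip s u v x ∧
      ¬ Flip s u v y := by
  have key : ∀ m m', s (m + 1) → s (m' + 1) → m' ≠ m + 1 ∧ m ≠ m' + 1 := by
    intro m m' h h'
    constructor
    · rintro rfl
      exact hs _ h h'
    · rintro rfl
      exact hs _ h' h
  by_cases hd : x ≠ y ∧ u ≠ v ∧ x ≠ u ∧ x ≠ v ∧ y ≠ u ∧ y ≠ v
  swap
  · unfold Cr Sep
    tauto
  obtain ⟨d1, d2, d3, d4, d5, d6⟩ := hd
  unfold Cr Sep Pos
  by_cases h1 : Flip s x y u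
  · obtain ⟨m, hm, i1, i2, i3⟩ := id h1
    have n2 : ¬ Flip s x y v := by
      rintro ⟨m', hm', j1, j2, j3⟩
      have := key m m' hm hm'
      omega
    have n3 : ¬ Flip s u v x := by
      rintro ⟨m', hm', j1, j2, j3⟩
      have := key m m' hm hm'
      omega
    have n4 : ¬ Flip s u v y := by
      rintro ⟨m', hm', j1, j2, j3⟩
      have := key m m' hm hm'
      omega
    simp only [h1, n2, n3, n4, iff_true, iff_false, not_not, not_true, false_and, and_false, Cyc]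
    omega
  by_cases h2 : Flip s x y v
  · obtain ⟨m, hm, i1, i2, i3⟩ := id h2
    have n3 : ¬ Flip s u v x := by
      rintro ⟨m', hm', j1, j2, j3⟩
      have := key m m' hm hm'
      omega
    have n4 : ¬ Flip s u v y := by
      rintro ⟨m', hm', j1, j2, j3⟩
      have := key m m' hm hm'
      omega
    simp only [h1, h2, n3, n4, iff_true, iff_false, not_not, not_true, false_and, and_false, Cyc]
    omega
  by_cases h3 : Flip s u v x
  · obtain ⟨m, hm, i1, i2, i3⟩ := id h3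
    have n4 : ¬ Flip s u v y := by
      rintro ⟨m', hm', j1, j2, j3⟩
      have := key m m' hm hm'
      omega
    simp only [h1, h2, h3, n4, iff_true, iff_false, not_not, not_true, false_and, and_false, Cyc]
    omega
  by_cases h4 : Flip s u v y
  · obtain ⟨m, hm, i1, i2, i3⟩ := id h4
    simp only [h1, h2, h3, h4, iff_true, iff_false, not_not, not_true, false_and, and_false, Cyc]
    omega
  simp only [h1, h2, h3, h4, iff_false, not_not, not_false_eq_true, and_true, Cyc]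
  omega

theorem cr_mono {s t : ℕ → Prop} (hs : ∀ i, s i → ¬ s (i + 1)) (h : ∀ i, t i → s i)
    {x y u v : ℕ} (hc : Cr s x y u v) : Cr t x y u v := by
  have ht : ∀ i, t i → ¬ t (i + 1) := fun i a b => hs i (h _ a) (h _ b)
  have hf : ∀ a b c, Flip t a b c → Flip s a b c := fun a b c ⟨m, hm, r⟩ => ⟨m, h _ hm, r⟩
  rw [cr_iff hs] at hc
  rw [cr_iff ht]
  exact ⟨hc.1, fun a => hc.2.1 (hf _ _ _ a), fun a => hc.2.2.1 (hf _ _ _ a),
    fun a => hc.2.2.2.1 (hf _ _ _ a), fun a => hc.2.2.2.2 (hf _ _ _ a)⟩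

/-- The graph of uncrossed edges: the long cycle and one short chord at each marked point. -/
def Adj (n : ℕ) (s : ℕ → Prop) (u v : ℕ) : Prop :=
  u + 1 = v ∨ v + 1 = u ∨ (u = 0 ∧ v + 1 = n) ∨ (v = 0 ∧ u + 1 = n) ∨
    (u + 2 = v ∧ s (u + 1)) ∨ (v + 2 = u ∧ s (v + 1))

theorem unc_of_adj {n : ℕ} {s : ℕ → Prop} (hs : ∀ i, s i → ¬ s (i + 1)) {u v x y : ℕ}
    (hx : x < n) (hy : y < n) (h : Adj n s u v) : ¬ Cr s u v x y := by
  rw [cr_iff hs]
  rintro ⟨h0, h1, h2, -, -⟩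
  unfold Sep Cyc at h0
  rcases h with h | h | h | h | ⟨h, hm⟩ | ⟨h, hm⟩
  · omega
  · omega
  · omega
  · omega
  · have : x = u + 1 ∨ y = u + 1 := by omega
    rcases this with e | e
    · exact h1 ⟨u, hm, by omega, by omega, by omega⟩
    · exact h2 ⟨u, hm, by omega, by omega, by omega⟩
  · have : x = v + 1 ∨ y = v + 1 := by omega
    rcases this with e | e
    · exact h1 ⟨v, hm, by omega, by omega, by omega⟩
    · exact h2 ⟨v, hm, by omega, by omega, by omega⟩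

theorem adj_of_unc_lt {n : ℕ} (hn : 6 ≤ n) {s : ℕ → Prop} (hs : ∀ i, s i → ¬ s (i + 1))
    {u v : ℕ} (huv : u < v) (hv : v < n) (h : ∀ x < n, ∀ y < n, ¬ Cr s u v x y) :
    Adj n s u v := by
  by_contra hn'
  unfold Adj at hn'
  simp only [not_or, not_and] at hn'
  obtain ⟨a1, -, a3, -, a5, -⟩ := hn'
  have main : ∀ x y, x < n → y < n → u < x → x < v → (y < u ∨ v < y) →
      (u + 2 = v ∨ ((y + 1 = u → x ≠ u + 1) ∧ (y = v + 1 → x + 1 ≠ v))) →
      (u + 2 = v → y + 1 ≠ u ∧ y ≠ v + 1) → False := by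
    intro x y hx hy b1 b2 b3 b4 b5
    refine h x hx y hy ((cr_iff hs _ _ _ _).2 ⟨?_, ?_, ?_, ?_, ?_⟩)
    · unfold Sep Cyc
      omega
    · rintro ⟨m, hm, j1, j2, j3⟩
      have e : m = u := by omega
      subst e
      exact a5 (by omega) hm
    · rintro ⟨m, hm, j1, j2, j3⟩
      omega
    · rintro ⟨m, hm, j1, j2, j3⟩
      omega
    · rintro ⟨m, hm, j1, j2, j3⟩
      omega
  by_cases e2 : u + 2 = v
  · by_cases e3 : 2 ≤ u
    · exact main (u + 1) 0 (by omega) (by omega) (by omega) (by omega) (by omega) (by omega)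
        (by omega)
    · exact main (u + 1) (n - 1) (by omega) (by omega) (by omega) (by omega) (by omega) (by omega)
        (by omega)
  · by_cases e3 : u = 0
    · have := a3 e3
      exact main 1 (v + 1) (by omega) (by omega) (by omega) (by omega) (by omega) (by omega)
        (by omega)
    · exact main (v - 1) (u - 1) (by omega) (by omega) (by omega) (by omega) (by omega) (by omega)
        (by omega)

theorem cr_swap {s : ℕ → Prop} (hs : ∀ i, s i → ¬ s (i + 1)) {x y u v : ℕ}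
    (h : Cr s x y u v) : Cr s y x u v := by
  have hf : ∀ a b c, Flip s a b c → Flip s b a c := fun a b c ⟨m, hm, j1, j2, j3⟩ =>
    ⟨m, hm, by omega, by omega, by omega⟩
  rw [cr_iff hs] at h ⊢
  obtain ⟨h0, h1, h2, h3, h4⟩ := h
  refine ⟨?_, fun a => h1 (hf _ _ _ a), fun a => h2 (hf _ _ _ a), h4, h3⟩
  unfold Sep Cyc at h0 ⊢
  omega

theorem adj_of_unc {n : ℕ} (hn : 6 ≤ n) {s : ℕ → Prop} (hs : ∀ i, s i → ¬ s (i + 1))
    {u v : ℕ} (huv : u ≠ v) (hu : u < n) (hv : v < n)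
    (h : ∀ x < n, ∀ y < n, ¬ Cr s u v x y) : Adj n s u v := by
  rcases lt_or_gt_of_ne huv with h1 | h1
  · exact adj_of_unc_lt hn hs h1 hv h
  · have := adj_of_unc_lt hn hs h1 hu fun x hx y hy hc => h x hx y hy (cr_swap hs hc)
    unfold Adj at this ⊢
    tauto

end Pool.Agent.Lib.MP_6e0a1a_co.Ev
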