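import Mathlib
import Pool.Agent.Lib.MP_6e0a1a_co.Geom
import Pool.Agent.Lib.MP_6e0a1a_co.EvArith

namespace Pool.Agent.Lib.MP_6e0a1a_co.Ev

open Filter Topology

/-- The drawing with abscissae 0, 1, 2, ... and ordinates y. -/
def pts {n : ℕ} (y : Fin n → ℝ) : Fin n → ℝ × ℝ := fun i => (((i : ℕ) : ℝ), y i)

theorem D_rot (p q r : ℝ × ℝ) : D p q r = D q r p := by
  unfold D
  ring

theorem D_swap (p q r : ℝ × ℝ) : D p q r = - D q p r := by
  unfold D
  ring

open Classical in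
/-- Points of a parabola, the marked ones pushed in. -/
noncomputable def base (n : ℕ) (s : ℕ → Prop) : Fin n → ℝ :=
  fun i => 2 * ((i : ℕ) : ℝ) ^ 2 + if s i then 3 else 0

theorem base_sorted {n : ℕ} {s : ℕ → Prop} (hs : ∀ i, s i → ¬ s (i + 1)) {a b c : Fin n}
    (hab : (a : ℕ) < b) (hbc : (b : ℕ) < c) :
    (Flip s a b c → D (pts (base n s) a) (pts (base n s) b) (pts (base n s) c) < 0) ∧
    (¬ Flip s a b c → 0 < D (pts (base n s) a) (pts (base n s) b) (pts (base n s) c)) := by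
  classical
  obtain ⟨p, hp⟩ : ∃ p : ℕ, (b : ℕ) = a + p + 1 := ⟨b - a - 1, by omega⟩
  obtain ⟨q, hq⟩ : ∃ q : ℕ, (c : ℕ) = b + q + 1 := ⟨c - b - 1, by omega⟩
  have hp' : ((b : ℕ) : ℝ) = (a : ℕ) + p + 1 := by exact_mod_cast hp
  have hq' : ((c : ℕ) : ℝ) = (a : ℕ) + p + 1 + q + 1 := by
    rw [← hp']
    exact_mod_cast hq
  have p0 : (0 : ℝ) ≤ p := Nat.cast_nonneg p
  have q0 : (0 : ℝ) ≤ q := Nat.cast_nonneg q
  have hD : D (pts (base n s) a) (pts (base n s) b) (pts (base n s) c) =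
      (p + q + 2) * (2 * (p + 1) * (q + 1) - if s b then 3 else 0) +
        (q + 1) * (if s a then 3 else 0) + (p + 1) * (if s c then 3 else 0) := by
    simp only [D, pts, base, hp', hq']
    ring
  rw [hD]
  constructor
  · rintro ⟨m, hm, j1, j2, j3⟩
    have e1 : (a : ℕ) = m := by omega
    have e2 : (b : ℕ) = m + 1 := by omega
    have e3 : (c : ℕ) = m + 1 + 1 := by omega
    have sa : ¬ s a := fun h => hs _ h (by rw [e1]; exact hm)
    have sb : s b := by rw [e2]; exact hm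
    have sc : ¬ s c := by rw [e3]; exact hs _ hm
    have z1 : p = 0 := by omega
    have z2 : q = 0 := by omega
    rw [if_neg sa, if_pos sb, if_neg sc, z1, z2]
    norm_num
  · intro hf
    have t1 : (0 : ℝ) ≤ (q + 1) * (if s a then 3 else 0) := by
      split_ifs <;> positivity
    have t2 : (0 : ℝ) ≤ (p + 1) * (if s c then 3 else 0) := by
      split_ifs <;> positivity
    have t3 : (0 : ℝ) < 2 * (p + 1) * (q + 1) - if s b then 3 else 0 := by
      split_ifs with sb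
      · have : 1 ≤ p + q := by
          by_contra hc
          refine hf ⟨a, ?_, by omega, by omega, by omega⟩
          have e : (b : ℕ) = a + 1 := by omega
          rw [← e]
          exact sb
        have h1 : (1 : ℝ) ≤ p + q := by exact_mod_cast this
        nlinarith [mul_nonneg p0 q0]
      · have : (0 : ℝ) < 2 * (p + 1) * (q + 1) := by positivity
        linarith
    have t4 : (0 : ℝ) < (p + q + 2) * (2 * (p + 1) * (q + 1) - if s b then 3 else 0) :=
      mul_pos (by positivity) t3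
    linarith

/-- The ordinates give the prescribed orientation to the triple. -/
def Good {n : ℕ} (s : ℕ → Prop) (y : Fin n → ℝ) (a b c : Fin n) : Prop :=
  (Pos s a b c → 0 < D (pts y a) (pts y b) (pts y c)) ∧
    (¬ Pos s a b c → D (pts y a) (pts y b) (pts y c) < 0)

theorem flip_rot {s : ℕ → Prop} {a b c : ℕ} : Flip s a b c ↔ Flip s b c a :=
  exists_congr fun m => and_congr_right fun _ => by omega

theorem flip_swap {s : ℕ → Prop} {a b c : ℕ} : Flip s a b c ↔ Flip s b a c :=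
  exists_congr fun m => and_congr_right fun _ => by omega

theorem good_rot {n : ℕ} {s : ℕ → Prop} {y : Fin n → ℝ} {a b c : Fin n} (h : Good s y b c a) :
    Good s y a b c := by
  have e : Pos s a b c ↔ Pos s b c a := by
    unfold Pos
    rw [flip_rot (a := a)]
    have : Cyc a b c ↔ Cyc b c a := by
      unfold Cyc
      tauto
    rw [this]
  unfold Good at h ⊢
  rw [e, D_rot]
  exact h

theorem good_swap {n : ℕ} {s : ℕ → Prop} {y : Fin n → ℝ} {a b c : Fin n} (hab : a ≠ b)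
    (hac : a ≠ c) (hbc : b ≠ c) (h : Good s y b a c) : Good s y a b c := by
  have e : Pos s a b c ↔ ¬ Pos s b a c := by
    unfold Pos
    rw [flip_swap (a := a)]
    have h1 : (a : ℕ) ≠ b := fun k => hab (Fin.ext k)
    have h2 : (a : ℕ) ≠ c := fun k => hac (Fin.ext k)
    have h3 : (b : ℕ) ≠ c := fun k => hbc (Fin.ext k)
    have : Cyc a b c ↔ ¬ Cyc b a c := by
      unfold Cyc
      omega
    rw [this]
    tauto
  unfold Good at h ⊢
  rw [e, D_swap]
  exact ⟨fun k => by linarith [h.2 k], fun k => by linarith [h.1 (not_not.1 k)]⟩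

theorem base_good {n : ℕ} {s : ℕ → Prop} (hs : ∀ i, s i → ¬ s (i + 1)) (a b c : Fin n)
    (hab : a ≠ b) (hac : a ≠ c) (hbc : b ≠ c) : Good s (base n s) a b c := by
  have srt : ∀ a b c : Fin n, (a : ℕ) < b → (b : ℕ) < c → Good s (base n s) a b c := by
    intro a b c h1 h2
    have hc : Cyc a b c := Or.inl ⟨h1, h2⟩
    have := base_sorted hs h1 h2
    unfold Good Pos
    constructor
    · intro k
      exact this.2 fun f => k ⟨fun _ => f, fun _ => hc⟩
    · intro k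
      exact this.1 ((not_not.1 k).1 hc)
  have h1 : (a : ℕ) ≠ b := fun k => hab (Fin.ext k)
  have h2 : (a : ℕ) ≠ c := fun k => hac (Fin.ext k)
  have h3 : (b : ℕ) ≠ c := fun k => hbc (Fin.ext k)
  have : ((a : ℕ) < b ∧ (b : ℕ) < c) ∨ ((b : ℕ) < c ∧ (c : ℕ) < a) ∨ ((c : ℕ) < a ∧ (a : ℕ) < b) ∨
      ((b : ℕ) < a ∧ (a : ℕ) < c) ∨ ((a : ℕ) < c ∧ (c : ℕ) < b) ∨ ((c : ℕ) < b ∧ (b : ℕ) < a) := by
    omega
  rcases this with h | h | h | h | h | h
  · exact srt _ _ _ h.1 h.2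
  · exact good_rot (srt _ _ _ h.1 h.2)
  · exact good_rot (good_rot (srt _ _ _ h.1 h.2))
  · exact good_swap hab hac hbc (srt _ _ _ h.1 h.2)
  · exact good_swap hab hac hbc (good_rot (srt _ _ _ h.1 h.2))
  · exact good_swap hab hac hbc (good_rot (good_rot (srt _ _ _ h.1 h.2)))

theorem dense_ne {n : ℕ} {F : (Fin n → ℝ) → ℝ} (hF : ∀ y, AnalyticAt ℝ F y) {z : Fin n → ℝ}
    (hz : F z ≠ 0) : Dense {y | F y ≠ 0} := by
  intro y
  by_contra hc
  rw [mem_closure_iff_frequently, not_frequently] at hc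
  have h0 : F =ᶠ[𝓝 y] fun _ => 0 := hc.mono fun w hw => by simpa using hw
  have := AnalyticOnNhd.eq_of_eventuallyEq (fun w _ => hF w) analyticOnNhd_const h0
  exact hz (congrFun this z)

theorem an_coord {n : ℕ} (i : Fin n) (y : Fin n → ℝ) : AnalyticAt ℝ (fun w : Fin n → ℝ => w i) y :=
  (ContinuousLinearMap.proj i : (Fin n → ℝ) →L[ℝ] ℝ).analyticAt y

theorem dense_D3 {n : ℕ} {a b c d e f : Fin n} (hcd : c ≠ d) (hef : e ≠ f)
    (h1 : a ≠ b) (h2 : a ≠ e) (h3 : a ≠ f) (h4 : c ≠ b) (h5 : c ≠ e) (h6 : c ≠ f)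
    (h7 : d ≠ b) (h8 : d ≠ e) (h9 : d ≠ f) :
    Dense {y : Fin n → ℝ |
      D3 (pts y a) (pts y b) (pts y c) (pts y d) (pts y e) (pts y f) ≠ 0} := by
  classical
  refine dense_ne (z := fun i => if i = b ∨ i = e ∨ i = f then 1 else 0) (fun y => ?_) ?_
  · have ia := an_coord a y
    have ib := an_coord b y
    have ic := an_coord c y
    have id := an_coord d y
    have ie := an_coord e y
    have ig := an_coord f y
    simp only [D3, pts]
    repeat' first
      | assumption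
      | exact analyticAt_const
      | apply AnalyticAt.fun_sub
      | apply AnalyticAt.fun_mul
      | apply AnalyticAt.fun_neg
      | apply AnalyticAt.fun_add
  · have k1 : ((d : ℕ) : ℝ) - (c : ℕ) ≠ 0 :=
      sub_ne_zero.2 fun k => hcd (Fin.ext (Nat.cast_injective k)).symm
    have k2 : ((e : ℕ) : ℝ) - (f : ℕ) ≠ 0 :=
      sub_ne_zero.2 fun k => hef (Fin.ext (Nat.cast_injective k))
    simp only [D3, pts, h1, h2, h3, h4, h5, h6, h7, h8, h9, or_self, if_false, true_or, or_true,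
      if_true]
    intro k
    exact mul_ne_zero k1 k2 (by linarith)

/-- Every marking without two neighbours is realized in general position. -/
theorem exists_realiz (n : ℕ) {s : ℕ → Prop} (hs : ∀ i, s i → ¬ s (i + 1)) :
    ∃ R : Realiz n, ∀ x y u v : Fin n, Cross R.1 x y u v ↔ Cr s x y u v := by
  classical
  have cD : ∀ a b c : Fin n,
      Continuous fun y : Fin n → ℝ => D (pts y a) (pts y b) (pts y c) := by
    intro a b c
    simp only [D, pts]
    fun_prop
  have hU : IsOpen {y : Fin n → ℝ | ∀ t : Fin n × Fin n × Fin n, t.1 ≠ t.2.1 → t.1 ≠ t.2.2 →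
      t.2.1 ≠ t.2.2 → Good s y t.1 t.2.1 t.2.2} := by
    rw [Set.ofPred_forall]
    refine isOpen_iInter_of_finite fun t => ?_
    by_cases h : t.1 ≠ t.2.1 ∧ t.1 ≠ t.2.2 ∧ t.2.1 ≠ t.2.2
    · by_cases k : Pos s t.1 t.2.1 t.2.2
      · simp only [h.1, h.2.1, h.2.2, ne_eq, not_false_eq_true, forall_const, Good, k, not_true,
          false_imp_iff, and_true]
        exact isOpen_lt continuous_const (cD _ _ _)
      · simp only [h.1, h.2.1, h.2.2, ne_eq, not_false_eq_true, forall_const, Good, k,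
          false_imp_iff, true_and]
        exact isOpen_lt (cD _ _ _) continuous_const
    · convert isOpen_univ
      exact Set.eq_univ_of_forall fun y a b c => absurd ⟨a, b, c⟩ h
  let C : Fin n × Fin n × Fin n × Fin n × Fin n × Fin n → Prop := fun t =>
    t.2.2.1 ≠ t.2.2.2.1 ∧ t.2.2.2.2.1 ≠ t.2.2.2.2.2 ∧ t.1 ≠ t.2.1 ∧ t.1 ≠ t.2.2.2.2.1 ∧
      t.1 ≠ t.2.2.2.2.2 ∧ t.2.2.1 ≠ t.2.1 ∧ t.2.2.1 ≠ t.2.2.2.2.1 ∧ t.2.2.1 ≠ t.2.2.2.2.2 ∧
      t.2.2.2.1 ≠ t.2.1 ∧ t.2.2.2.1 ≠ t.2.2.2.2.1 ∧ t.2.2.2.1 ≠ t.2.2.2.2.2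
  let V : {t // C t} → Set (Fin n → ℝ) := fun t => {y | D3 (pts y t.1.1) (pts y t.1.2.1)
    (pts y t.1.2.2.1) (pts y t.1.2.2.2.1) (pts y t.1.2.2.2.2.1) (pts y t.1.2.2.2.2.2) ≠ 0}
  have hV : Dense (⋂ t, V t) := by
    refine dense_iInter_of_isOpen (fun t => ?_) fun t => ?_
    · refine isOpen_ne_fun ?_ continuous_const
      simp only [D3, pts]
      fun_prop
    · obtain ⟨c1, c2, c3, c4, c5, c6, c7, c8, c9, c10, c11⟩ := t.2
      exact dense_D3 c1 c2 c3 c4 c5 c6 c7 c8 c9 c10 c11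
  obtain ⟨y, hy1, hy2⟩ := hV.inter_open_nonempty _ hU
    ⟨base n s, fun t a b c => base_good hs _ _ _ a b c⟩
  have g : ∀ a b c : Fin n, a ≠ b → a ≠ c → b ≠ c → Good s y a b c :=
    fun a b c h1 h2 h3 => hy1 (a, b, c) h1 h2 h3
  have hne : ∀ a b c : Fin n, a ≠ b → a ≠ c → b ≠ c →
      D (pts y a) (pts y b) (pts y c) ≠ 0 := by
    intro a b c h1 h2 h3
    by_cases k : Pos s a b c
    · exact ((g a b c h1 h2 h3).1 k).ne'
    · exact ((g a b c h1 h2 h3).2 k).ne
  have hpos : ∀ a b c : Fin n, a ≠ b → a ≠ c → b ≠ c →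
      (0 < D (pts y a) (pts y b) (pts y c) ↔ Pos s a b c) := by
    intro a b c h1 h2 h3
    refine ⟨fun k => by_contra fun k' => ?_, (g a b c h1 h2 h3).1⟩
    linarith [(g a b c h1 h2 h3).2 k']
  refine ⟨⟨pts y, ?_, ?_, ?_⟩, ?_⟩
  · intro a b h
    exact Fin.ext (Nat.cast_injective (R := ℝ) (congrArg Prod.fst h))
  · exact fun a b c h1 h2 h3 k => hne a b c h1 h2 h3 (D_of_collinear k)
  · intro a b c d e f k1 k2 k3
    refine Set.eq_empty_of_forall_notMem fun x hx => ?_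
    have hc : C (a, b, c, d, e, f) :=
      ⟨k1.2.1, k2.2.1, k1.1, k2.2.2.1, k2.2.2.2.1, k1.2.2.2.2.1.symm, k3.2.2.1, k3.2.2.2.1,
        k1.2.2.2.2.2.1.symm, k3.2.2.2.2.1, k3.2.2.2.2.2.1⟩
    exact Set.mem_iInter.1 hy2 ⟨_, hc⟩ (D3_eq_zero hx.1.1 hx.1.2 hx.2)
  · intro a b c d
    change Cross (pts y) a b c d ↔ _
    rw [cross_iff hne]
    unfold Cr
    simp only [ne_eq, Fin.val_inj]
    refine and_congr_right fun h1 => and_congr_right fun h2 => and_congr_right fun h3 =>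
      and_congr_right fun h4 => and_congr_right fun h5 => and_congr_right fun h6 => ?_
    rw [hpos a b c h1 h3 h5, hpos a b d h1 h4 h6, hpos c d a h2 (Ne.symm h3) (Ne.symm h4),
      hpos c d b h2 (Ne.symm h5) (Ne.symm h6)]

end Pool.Agent.Lib.MP_6e0a1a_co.Ev
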