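import Mathlib
import Pool.Agent.Lib.MP_6e0a1a_co.EvArith

namespace Pool.Agent.Lib.MP_6e0a1a_co.Ev

/-- The positions that may be marked. -/
def Mk (n x : ℕ) : Prop := x = 1 ∨ (3 ≤ x ∧ x % 3 = 0 ∧ x + 3 ≤ n)

theorem mk_sep {n : ℕ} {s : ℕ → Prop} (h : ∀ i, s i → Mk n i) : ∀ i, s i → ¬ s (i + 1) := by
  intro i a b
  have h1 := h _ a
  have h2 := h _ b
  unfold Mk at h1 h2
  omega

theorem adj_mono {n : ℕ} {s t : ℕ → Prop} (h : ∀ i, s i → t i) {u v : ℕ} (ha : Adj n s u v) :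
    Adj n t u v := by
  unfold Adj at ha ⊢
  have h1 := h (u + 1)
  have h2 := h (v + 1)
  tauto

theorem nbr {n w v : ℕ} (hn : 9 ≤ n) (h : Adj n (Mk n) w v) :
    (v = w + 1 ∨ (v = 0 ∧ w + 1 = n)) ∨ (v + 1 = w ∨ (w = 0 ∧ v + 1 = n)) ∨
      (v = w + 2 ∧ (w = 0 ∨ w % 3 = 2) ∧ w + 4 ≤ n) ∨
      (v + 2 = w ∧ (w = 2 ∨ (w % 3 = 1 ∧ 4 ≤ w)) ∧ w + 2 ≤ n) := by
  unfold Adj Mk at h
  omega

theorem deg_four {n w a b c d : ℕ} (hn : 9 ≤ n) (hw : w < n) (la : a < n) (lb : b < n)
    (lc : c < n) (ld : d < n)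
    (ha : Adj n (Mk n) w a) (hb : Adj n (Mk n) w b) (hc : Adj n (Mk n) w c)
    (hd : Adj n (Mk n) w d) (h1 : a ≠ b) (h2 : a ≠ c) (h3 : a ≠ d) (h4 : b ≠ c) (h5 : b ≠ d)
    (h6 : c ≠ d) : w = 2 := by
  have e1 := nbr hn ha
  have e2 := nbr hn hb
  have e3 := nbr hn hc
  have e4 := nbr hn hd
  clear ha hb hc hd
  omega

theorem deg_three {n w a b c : ℕ} (hn : 9 ≤ n) (hw : w < n) (la : a < n) (lb : b < n)
    (lc : c < n) (ha : Adj n (Mk n) w a) (hb : Adj n (Mk n) w b) (hc : Adj n (Mk n) w c)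
    (h1 : a ≠ b) (h2 : a ≠ c) (h4 : b ≠ c) : w ≠ 1 ∧ w ≠ 3 ∧ w + 1 ≠ n := by
  have e1 := nbr hn ha
  have e2 := nbr hn hb
  have e3 := nbr hn hc
  clear ha hb hc
  omega

theorem rigid {n : ℕ} (hn : 9 ≤ n) {t : ℕ → Prop} (t1 : t 1) (t3 : t 3) (t6 : t 6) {G : ℕ → ℕ}
    (hlt : ∀ i < n, G i < n) (inj : ∀ i < n, ∀ j < n, G i = G j → i = j)
    (surj : ∀ j < n, ∃ i < n, G i = j)
    (h : ∀ u < n, ∀ v < n, Adj n t u v → Adj n (Mk n) (G u) (G v)) : ∀ i < n, G i = i := by
  have ne : ∀ i < n, ∀ j < n, i ≠ j → G i ≠ G j := fun i hi j hj hij e => hij (inj i hi j hj e)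
  have up : ∀ u, u + 1 < n → Adj n (Mk n) (G u) (G (u + 1)) := fun u hu =>
    h u (by omega) (u + 1) hu (Or.inl rfl)
  have dn : ∀ u, u + 1 < n → Adj n (Mk n) (G (u + 1)) (G u) := fun u hu =>
    h (u + 1) hu u (by omega) (Or.inr (Or.inl rfl))
  have up2 : ∀ u, u + 2 < n → t (u + 1) → Adj n (Mk n) (G u) (G (u + 2)) := fun u hu ht =>
    h u (by omega) (u + 2) hu (Or.inr (Or.inr (Or.inr (Or.inr (Or.inl ⟨rfl, ht⟩)))))
  have dn2 : ∀ u, u + 2 < n → t (u + 1) → Adj n (Mk n) (G (u + 2)) (G u) := fun u hu ht =>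
    h (u + 2) hu u (by omega) (Or.inr (Or.inr (Or.inr (Or.inr (Or.inr ⟨rfl, ht⟩)))))
  have w0 : Adj n (Mk n) (G 0) (G (n - 1)) :=
    h 0 (by omega) (n - 1) (by omega) (Or.inr (Or.inr (Or.inl ⟨rfl, by omega⟩)))
  have w1 : Adj n (Mk n) (G (n - 1)) (G 0) :=
    h (n - 1) (by omega) 0 (by omega) (Or.inr (Or.inr (Or.inr (Or.inl ⟨rfl, by omega⟩))))
  have a20 := dn2 0 (by omega) t1
  have a21 := dn 1 (by omega)
  have a23 := up 2 (by omega)
  have a24 := up2 2 (by omega) t3
  have g2 : G 2 = 2 :=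
    deg_four hn (hlt 2 (by omega)) (hlt 0 (by omega)) (hlt 1 (by omega)) (hlt 3 (by omega))
      (hlt 4 (by omega)) a20 a21 a23 a24 (ne _ (by omega) _ (by omega) (by omega))
      (ne _ (by omega) _ (by omega) (by omega)) (ne _ (by omega) _ (by omega) (by omega))
      (ne _ (by omega) _ (by omega) (by omega)) (ne _ (by omega) _ (by omega) (by omega))
      (ne _ (by omega) _ (by omega) (by omega))
  have d0 := deg_three hn (hlt 0 (by omega)) (hlt 1 (by omega)) (hlt 2 (by omega))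
    (hlt (n - 1) (by omega)) (up 0 (by omega)) (up2 0 (by omega) t1) w0
    (ne _ (by omega) _ (by omega) (by omega)) (ne _ (by omega) _ (by omega) (by omega))
    (ne _ (by omega) _ (by omega) (by omega))
  have d4 := deg_three hn (hlt 4 (by omega)) (hlt 5 (by omega)) (hlt 3 (by omega))
    (hlt 2 (by omega)) (up 4 (by omega)) (dn 3 (by omega)) (dn2 2 (by omega) t3)
    (ne _ (by omega) _ (by omega) (by omega)) (ne _ (by omega) _ (by omega) (by omega))
    (ne _ (by omega) _ (by omega) (by omega))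
  have d5 := deg_three hn (hlt 5 (by omega)) (hlt 6 (by omega)) (hlt 4 (by omega))
    (hlt 7 (by omega)) (up 5 (by omega)) (dn 4 (by omega)) (up2 5 (by omega) t6)
    (ne _ (by omega) _ (by omega) (by omega)) (ne _ (by omega) _ (by omega) (by omega))
    (ne _ (by omega) _ (by omega) (by omega))
  have n25 : G 2 ≠ G 5 := ne _ (by omega) _ (by omega) (by omega)
  have n04 : G 0 ≠ G 4 := ne _ (by omega) _ (by omega) (by omega)
  have n01 : G 0 ≠ G 1 := ne _ (by omega) _ (by omega) (by omega)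
  have n13 : G 1 ≠ G 3 := ne _ (by omega) _ (by omega) (by omega)
  have n03 : G 0 ≠ G 3 := ne _ (by omega) _ (by omega) (by omega)
  have n34 : G 3 ≠ G 4 := ne _ (by omega) _ (by omega) (by omega)
  have b20 := nbr hn a20
  have b21 := nbr hn a21
  have b23 := nbr hn a23
  have b24 := nbr hn a24
  have b45 := nbr hn (up 4 (by omega))
  have b01 := nbr hn (up 0 (by omega))
  simp only [Nat.reduceAdd, g2] at b20 b21 b23 b24 b45 b01 d0 d4 d5 n25
  have g4 : G 4 = 4 := by
    clear b20 b21 b23 b01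
    omega
  have g0 : G 0 = 0 := by
    clear b21 b23 b01 b45
    omega
  have g1 : G 1 = 1 := by
    clear b20 b23 b45 b24
    omega
  have g3 : G 3 = 3 := by
    clear b20 b21 b01 b45 b24
    omega
  have step : ∀ m, 4 ≤ m → m + 1 < n → (∀ i ≤ m, G i = i) → G (m + 1) = m + 1 := by
    intro m hm hmn ih
    have big : ∀ j < n, m < j → m < G j := by
      intro j hj hmj
      by_contra hc
      have e := ih (G j) (by omega)
      have := inj (G j) (hlt j hj) j hj e
      omega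
    have c1 := up m hmn
    rw [ih m le_rfl] at c1
    have c2 := big (m + 1) hmn (by omega)
    by_contra hne
    have c3 : G (m + 1) = m + 2 ∧ m % 3 = 2 ∧ m + 4 ≤ n := by
      have := nbr hn c1
      omega
    obtain ⟨j, hj, ej⟩ := surj (m + 1) hmn
    have j1 : m + 2 ≤ j := by
      by_contra hc
      have : j ≤ m ∨ j = m + 1 := by omega
      rcases this with e | e
      · have := ih j e
        omega
      · rw [e] at ej
        omega
    by_cases hl : j + 1 < n
    · have c4 := nbr hn (up j hl)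
      have c5 := big (j + 1) hl (by omega)
      have c6 := ne (j + 1) hl (m + 1) hmn (by omega)
      omega
    · have e : j = n - 1 := by omega
      rw [e] at ej
      have c4 := nbr hn w1
      omega
  have all : ∀ m, 4 ≤ m → m < n → ∀ i ≤ m, G i = i := by
    intro m hm
    induction m, hm using Nat.le_induction with
    | base =>
      intro _ i hi
      interval_cases i <;> assumption
    | succ m hm ih =>
      intro hmn i hi
      rcases Nat.lt_or_ge i (m + 1) with e | e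
      · exact ih (by omega) i (by omega)
      · have e' : i = m + 1 := by omega
        rw [e']
        exact step m hm hmn (ih (by omega))
  intro i hi
  exact all (n - 1) (by omega) (by omega) i (by omega)

/-- A crossing-preserving injection between two marked configurations forces an inclusion. -/
theorem sub_of_hom {n : ℕ} (hn : 9 ≤ n) {s t : ℕ → Prop} (hs : ∀ i, s i → Mk n i)
    (ht : ∀ i, t i → Mk n i) (t1 : t 1) (t3 : t 3) (t6 : t 6) (f : Fin n → Fin n)
    (hf : Function.Injective f)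
    (hc : ∀ x y u v : Fin n, Cr s x y u v → Cr t (f x) (f y) (f u) (f v)) :
    ∀ i, t i → s i := by
  let e : Fin n ≃ Fin n := Equiv.ofBijective f (Finite.injective_iff_bijective.1 hf)
  have he : ∀ z, f (e.symm z) = z := fun z => e.apply_symm_apply z
  let G : ℕ → ℕ := fun i => if h : i < n then (e.symm ⟨i, h⟩ : ℕ) else i
  have hG : ∀ i (h : i < n), G i = (e.symm ⟨i, h⟩ : ℕ) := fun i h => dif_pos h
  have hlt : ∀ i < n, G i < n := fun i h => by
    rw [hG i h]
    exact (e.symm ⟨i, h⟩).2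
  have inj : ∀ i < n, ∀ j < n, G i = G j → i = j := fun i hi j hj k => by
    rw [hG i hi, hG j hj] at k
    exact congrArg Fin.val (e.symm.injective (Fin.ext k))
  have surj : ∀ j < n, ∃ i < n, G i = j := fun j hj =>
    ⟨e ⟨j, hj⟩, (e ⟨j, hj⟩).2, by
      rw [hG _ (e ⟨j, hj⟩).2]
      simp⟩
  have adj : ∀ u < n, ∀ v < n, Adj n t u v → Adj n s (G u) (G v) := by
    intro u hu v hv ha
    have huv : u ≠ v := by
      unfold Adj at ha
      omega
    refine adj_of_unc (by omega) (mk_sep hs) (fun k => huv (inj u hu v hv k)) (hlt u hu)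
      (hlt v hv) fun x hx y hy k => ?_
    rw [hG u hu, hG v hv] at k
    have k2 := hc (e.symm ⟨u, hu⟩) (e.symm ⟨v, hv⟩) ⟨x, hx⟩ ⟨y, hy⟩ k
    rw [he, he] at k2
    exact unc_of_adj (mk_sep ht) (f ⟨x, hx⟩).2 (f ⟨y, hy⟩).2 ha k2
  have hid := rigid hn t1 t3 t6 hlt inj surj fun u hu v hv ha => adj_mono hs (adj u hu v hv ha)
  intro i hi
  have mi := ht i hi
  unfold Mk at mi
  obtain ⟨m, rfl⟩ : ∃ m, i = m + 1 := ⟨i - 1, by omega⟩
  have k := adj m (by omega) (m + 2) (by omega)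
    (Or.inr (Or.inr (Or.inr (Or.inr (Or.inl ⟨rfl, hi⟩)))))
  rw [hid m (by omega), hid (m + 2) (by omega)] at k
  rcases k with k | k | k | k | k | k
  · omega
  · omega
  · omega
  · omega
  · exact k.2
  · omega

end Pool.Agent.Lib.MP_6e0a1a_co.Ev
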