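import Mathlib
import Pool.Agent.Lib.MP_6e0a1a_co.Comb
import Pool.Agent.Lib.MP_6e0a1a_co.EvRigid
import Pool.Agent.Lib.MP_6e0a1a_co.EvGeom

namespace Pool.Agent.Lib.MP_6e0a1a_co.Ev

theorem finite_kposet (k : ℕ) : Finite (KPoset k) := by
  refine Finite.of_injective (fun p : KPoset k => Cross (Quot.out p).1) fun p q h => ?_
  rw [← Quot.out_eq p, ← Quot.out_eq q]
  refine Quot.sound ⟨id, Function.bijective_id, fun _ _ => Iff.rfl, fun x y u v => ?_⟩
  have h' : Cross (Quot.out p).1 = Cross (Quot.out q).1 := h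
  rw [h']
  rfl

theorem iso_of_le {k : ℕ} {P Q : Realiz k} (h1 : HomLe P Q) (h2 : HomLe Q P) : GeomIso P Q := by
  classical
  obtain ⟨f, hf, -, hc⟩ := h1
  obtain ⟨g, hg, -, hd⟩ := h2
  let X : Realiz k → Finset (Fin k × Fin k × Fin k × Fin k) := fun R =>
    Finset.univ.filter fun t => Cross R.1 t.1 t.2.1 t.2.2.1 t.2.2.2
  let m : (Fin k → Fin k) → Fin k × Fin k × Fin k × Fin k → Fin k × Fin k × Fin k × Fin k :=
    fun a t => (a t.1, a t.2.1, a t.2.2.1, a t.2.2.2)
  have mi : ∀ a, Function.Injective a → Function.Injective (m a) := by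
    rintro a ha ⟨x, y, u, v⟩ ⟨x', y', u', v'⟩ h
    simp only [m, Prod.mk.injEq] at h
    rw [ha h.1, ha h.2.1, ha h.2.2.1, ha h.2.2.2]
  have s1 : (X P).image (m f) ⊆ X Q := by
    intro t ht
    obtain ⟨r, hr, rfl⟩ := Finset.mem_image.1 ht
    exact Finset.mem_filter.2 ⟨Finset.mem_univ _, hc _ _ _ _ (Finset.mem_filter.1 hr).2⟩
  have s2 : (X Q).image (m g) ⊆ X P := by
    intro t ht
    obtain ⟨r, hr, rfl⟩ := Finset.mem_image.1 ht
    exact Finset.mem_filter.2 ⟨Finset.mem_univ _, hd _ _ _ _ (Finset.mem_filter.1 hr).2⟩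
  have c2 := Finset.card_le_card s2
  rw [Finset.card_image_of_injective _ (mi g hg)] at c2
  have e : (X P).image (m f) = X Q := Finset.eq_of_subset_of_card_le s1 (by
    rw [Finset.card_image_of_injective _ (mi f hf)]
    exact c2)
  refine ⟨f, Finite.injective_iff_bijective.1 hf, fun u v => hf.ne_iff.symm, fun x y u v =>
    ⟨hc x y u v, fun h => ?_⟩⟩
  have h3 : m f (x, y, u, v) ∈ X Q := Finset.mem_filter.2 ⟨Finset.mem_univ _, h⟩
  rw [← e] at h3
  obtain ⟨r, hr, er⟩ := Finset.mem_image.1 h3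
  rw [mi f hf er] at hr
  exact (Finset.mem_filter.1 hr).2

theorem kLe_refl {k : ℕ} (p : KPoset k) : KLe p p := by
  induction p using Quot.ind with
  | mk P => exact (kLe_mk P P).2 (homLe_refl P)

theorem kLe_trans {k : ℕ} {p q r : KPoset k} (h1 : KLe p q) (h2 : KLe q r) : KLe p r := by
  induction p using Quot.ind with
  | mk P =>
    induction q using Quot.ind with
    | mk Q =>
      induction r using Quot.ind with
      | mk R => exact (kLe_mk P R).2 (homLe_trans ((kLe_mk P Q).1 h1) ((kLe_mk Q R).1 h2))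

theorem kLe_antisymm {k : ℕ} {p q : KPoset k} (h1 : KLe p q) (h2 : KLe q p) : p = q := by
  induction p using Quot.ind with
  | mk P =>
    induction q using Quot.ind with
    | mk Q => exact Quot.sound (iso_of_le ((kLe_mk P Q).1 h1) ((kLe_mk Q P).1 h2))

/-- The subsets of a t-element set, ordered by reverse inclusion, embed for n at least 3t+9. -/
theorem boolean_embeds {t n : ℕ} (hn : 3 * t + 9 ≤ n) :
    ∃ ψ : Set (Fin t) → KPoset n, ∀ A B, KLe (ψ A) (ψ B) ↔ B ⊆ A := by
  let s : Set (Fin t) → ℕ → Prop := fun A x => x = 1 ∨ x = 3 ∨ x = 6 ∨ ∃ j ∈ A, x = 9 + 3 * (j : ℕ)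
  have hs : ∀ A i, s A i → Mk n i := by
    intro A i h
    unfold Mk
    rcases h with h | h | h | ⟨j, -, h⟩
    · omega
    · omega
    · omega
    · have := j.2
      omega
  choose R hR using fun A => exists_realiz n (mk_sep (hs A))
  refine ⟨fun A => Quot.mk _ (R A), fun A B => ?_⟩
  rw [kLe_mk]
  constructor
  · rintro ⟨f, hf, -, hc⟩ j hj
    have h := sub_of_hom (by omega) (hs A) (hs B) (Or.inl rfl) (Or.inr (Or.inl rfl))
      (Or.inr (Or.inr (Or.inl rfl))) f hf
      (fun x y u v k => (hR B _ _ _ _).1 (hc _ _ _ _ ((hR A _ _ _ _).2 k))) (9 + 3 * (j : ℕ))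
      (Or.inr (Or.inr (Or.inr ⟨j, hj, rfl⟩)))
    rcases h with h | h | h | ⟨i, hi, h⟩
    · omega
    · omega
    · omega
    · have e : j = i := Fin.ext (by omega)
      rw [e]
      exact hi
  · intro h
    refine ⟨id, Function.injective_id, fun _ _ k => k, fun x y u v k => (hR B _ _ _ _).2 ?_⟩
    refine cr_mono (mk_sep (hs A)) (fun i hi => ?_) ((hR A _ _ _ _).1 k)
    rcases hi with hi | hi | hi | ⟨j, hj, hi⟩
    · exact Or.inl hi
    · exact Or.inr (Or.inl hi)
    · exact Or.inr (Or.inr (Or.inl hi))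
    · exact Or.inr (Or.inr (Or.inr ⟨j, h hj, hi⟩))

theorem subPoset_of_le {k n : ℕ} (hn : 3 * Nat.card (KPoset k) + 9 ≤ n) : SubPoset k n := by
  have := finite_kposet k
  obtain ⟨ψ, hψ⟩ := boolean_embeds hn
  let e := Finite.equivFin (KPoset k)
  have key : ∀ p p' : KPoset k,
      KLe p p' ↔ KLe (ψ {j | KLe p (e.symm j)}) (ψ {j | KLe p' (e.symm j)}) := by
    intro p p'
    rw [hψ]
    constructor
    · intro h j hj
      exact kLe_trans h hj
    · intro h
      have h1 : e p' ∈ {j | KLe p' (e.symm j)} := by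
        simpa using kLe_refl p'
      simpa using h h1
  refine ⟨fun p => ψ {j | KLe p (e.symm j)}, fun p p' h => ?_, key⟩
  have h' : ψ {j | KLe p (e.symm j)} = ψ {j | KLe p' (e.symm j)} := h
  refine kLe_antisymm ((key p p').2 ?_) ((key p' p).2 ?_)
  · rw [h']
    exact kLe_refl _
  · rw [h']
    exact kLe_refl _

end Pool.Agent.Lib.MP_6e0a1a_co.Ev
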