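import Mathlib
import Pool.Agent.Lib.MP_6e0a1a_co.Search7
import Pool.Agent.Lib.MP_6e0a1a_co.Chunk

namespace Pool.Agent.Lib.MP_6e0a1a_co

theorem neg7a_c0 : allN 4 (fun k => (fun j => negOK7 (Nat.add j 0)) (Nat.add k 0)) = true := by
  decide +kernel

theorem neg7a_c1 : allN 4 (fun k => (fun j => negOK7 (Nat.add j 0)) (Nat.add k 4)) = true := by
  decide +kernel

theorem neg7a_c2 : allN 4 (fun k => (fun j => negOK7 (Nat.add j 0)) (Nat.add k 8)) = true := by
  decide +kernel

theorem neg7a_c3 : allN 4 (fun k => (fun j => negOK7 (Nat.add j 0)) (Nat.add k 12)) = true := by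
  decide +kernel

theorem neg7a_c4 : allN 4 (fun k => (fun j => negOK7 (Nat.add j 0)) (Nat.add k 16)) = true := by
  decide +kernel

theorem neg7a_c5 : allN 4 (fun k => (fun j => negOK7 (Nat.add j 0)) (Nat.add k 20)) = true := by
  decide +kernel

theorem neg7a_c6 : allN 4 (fun k => (fun j => negOK7 (Nat.add j 0)) (Nat.add k 24)) = true := by
  decide +kernel

theorem neg7a_c7 : allN 4 (fun k => (fun j => negOK7 (Nat.add j 0)) (Nat.add k 28)) = true := by
  decide +kernel

theorem neg7a_c8 : allN 4 (fun k => (fun j => negOK7 (Nat.add j 0)) (Nat.add k 32)) = true := by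
  decide +kernel

theorem neg7a_c9 : allN 4 (fun k => (fun j => negOK7 (Nat.add j 0)) (Nat.add k 36)) = true := by
  decide +kernel

theorem neg7a_c10 : allN 4 (fun k => (fun j => negOK7 (Nat.add j 0)) (Nat.add k 40)) = true := by
  decide +kernel

theorem neg7a_c11 : allN 4 (fun k => (fun j => negOK7 (Nat.add j 0)) (Nat.add k 44)) = true := by
  decide +kernel

theorem neg7a_c12 : allN 2 (fun k => (fun j => negOK7 (Nat.add j 0)) (Nat.add k 48)) = true := by
  decide +kernel

theorem neg7_0 : allN 50 (fun k => negOK7 (Nat.add k 0)) = true :=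
  allN_intro (upto_step (c := 48) (n := 2) (m := 50) rfl
    (upto_step (c := 44) (n := 4) (m := 48) rfl
    (upto_step (c := 40) (n := 4) (m := 44) rfl
    (upto_step (c := 36) (n := 4) (m := 40) rfl
    (upto_step (c := 32) (n := 4) (m := 36) rfl
    (upto_step (c := 28) (n := 4) (m := 32) rfl
    (upto_step (c := 24) (n := 4) (m := 28) rfl
    (upto_step (c := 20) (n := 4) (m := 24) rfl
    (upto_step (c := 16) (n := 4) (m := 20) rfl
    (upto_step (c := 12) (n := 4) (m := 16) rfl
    (upto_step (c := 8) (n := 4) (m := 12) rfl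
    (upto_step (c := 4) (n := 4) (m := 8) rfl
    (upto_step (c := 0) (n := 4) (m := 4) rfl (upto_zero _) neg7a_c0) neg7a_c1) neg7a_c2) neg7a_c3) neg7a_c4) neg7a_c5) neg7a_c6) neg7a_c7) neg7a_c8) neg7a_c9) neg7a_c10) neg7a_c11) neg7a_c12)

end Pool.Agent.Lib.MP_6e0a1a_co
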