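import Mathlib
import Pool.Agent.Lib.MP_6e0a1a_co.Search7
import Pool.Agent.Lib.MP_6e0a1a_co.Chunk

namespace Pool.Agent.Lib.MP_6e0a1a_co

theorem neg7b_c0 : allN 4 (fun k => (fun j => negOK7 (Nat.add j 50)) (Nat.add k 0)) = true := by
  decide +kernel

theorem neg7b_c1 : allN 4 (fun k => (fun j => negOK7 (Nat.add j 50)) (Nat.add k 4)) = true := by
  decide +kernel

theorem neg7b_c2 : allN 4 (fun k => (fun j => negOK7 (Nat.add j 50)) (Nat.add k 8)) = true := by
  decide +kernel

theorem neg7b_c3 : allN 4 (fun k => (fun j => negOK7 (Nat.add j 50)) (Nat.add k 12)) = true := by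
  decide +kernel

theorem neg7b_c4 : allN 4 (fun k => (fun j => negOK7 (Nat.add j 50)) (Nat.add k 16)) = true := by
  decide +kernel

theorem neg7b_c5 : allN 4 (fun k => (fun j => negOK7 (Nat.add j 50)) (Nat.add k 20)) = true := by
  decide +kernel

theorem neg7b_c6 : allN 4 (fun k => (fun j => negOK7 (Nat.add j 50)) (Nat.add k 24)) = true := by
  decide +kernel

theorem neg7b_c7 : allN 4 (fun k => (fun j => negOK7 (Nat.add j 50)) (Nat.add k 28)) = true := by
  decide +kernel

theorem neg7b_c8 : allN 4 (fun k => (fun j => negOK7 (Nat.add j 50)) (Nat.add k 32)) = true := by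
  decide +kernel

theorem neg7b_c9 : allN 4 (fun k => (fun j => negOK7 (Nat.add j 50)) (Nat.add k 36)) = true := by
  decide +kernel

theorem neg7b_c10 : allN 4 (fun k => (fun j => negOK7 (Nat.add j 50)) (Nat.add k 40)) = true := by
  decide +kernel

theorem neg7b_c11 : allN 4 (fun k => (fun j => negOK7 (Nat.add j 50)) (Nat.add k 44)) = true := by
  decide +kernel

theorem neg7b_c12 : allN 4 (fun k => (fun j => negOK7 (Nat.add j 50)) (Nat.add k 48)) = true := by
  decide +kernel

theorem neg7b_c13 : allN 4 (fun k => (fun j => negOK7 (Nat.add j 50)) (Nat.add k 52)) = true := by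
  decide +kernel

theorem neg7b_c14 : allN 4 (fun k => (fun j => negOK7 (Nat.add j 50)) (Nat.add k 56)) = true := by
  decide +kernel

theorem neg7b_c15 : allN 4 (fun k => (fun j => negOK7 (Nat.add j 50)) (Nat.add k 60)) = true := by
  decide +kernel

theorem neg7b_c16 : allN 4 (fun k => (fun j => negOK7 (Nat.add j 50)) (Nat.add k 64)) = true := by
  decide +kernel

theorem neg7b_c17 : allN 4 (fun k => (fun j => negOK7 (Nat.add j 50)) (Nat.add k 68)) = true := by
  decide +kernel

theorem neg7_1 : allN 72 (fun k => negOK7 (Nat.add k 50)) = true :=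
  allN_intro (upto_step (c := 68) (n := 4) (m := 72) rfl
    (upto_step (c := 64) (n := 4) (m := 68) rfl
    (upto_step (c := 60) (n := 4) (m := 64) rfl
    (upto_step (c := 56) (n := 4) (m := 60) rfl
    (upto_step (c := 52) (n := 4) (m := 56) rfl
    (upto_step (c := 48) (n := 4) (m := 52) rfl
    (upto_step (c := 44) (n := 4) (m := 48) rfl
    (upto_step (c := 40) (n := 4) (m := 44) rfl
    (upto_step (c := 36) (n := 4) (m := 40) rfl
    (upto_step (c := 32) (n := 4) (m := 36) rfl
    (upto_step (c := 28) (n := 4) (m := 32) rfl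
    (upto_step (c := 24) (n := 4) (m := 28) rfl
    (upto_step (c := 20) (n := 4) (m := 24) rfl
    (upto_step (c := 16) (n := 4) (m := 20) rfl
    (upto_step (c := 12) (n := 4) (m := 16) rfl
    (upto_step (c := 8) (n := 4) (m := 12) rfl
    (upto_step (c := 4) (n := 4) (m := 8) rfl
    (upto_step (c := 0) (n := 4) (m := 4) rfl (upto_zero _) neg7b_c0) neg7b_c1) neg7b_c2) neg7b_c3) neg7b_c4) neg7b_c5) neg7b_c6) neg7b_c7) neg7b_c8) neg7b_c9) neg7b_c10) neg7b_c11) neg7b_c12) neg7b_c13) neg7b_c14) neg7b_c15) neg7b_c16) neg7b_c17)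

end Pool.Agent.Lib.MP_6e0a1a_co
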