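import Mathlib
import Pool.Agent.Lib.MP_6e0a1a_co.Search6

namespace Pool.Agent.Lib.MP_6e0a1a_co

def px : List (List ℤ) := [
  [5, 4, 2, 8, 6, 5],
  [7, 5, 4, 3, 5, 6],
  [1, 4, 8, 0, 3, 3],
  [3, 3, 5, 1, 8, 7],
  [0, 8, 3, 8, 5, 4],
  [4, 2, 4, 5, 7, 0],
  [0, 3, 6, 0, 8, 1],
  [1, 6, 4, 0, 0, 4],
  [0, 8, 8, 3, 0, 5],
  [0, 2, 2, 8, 0, 1],
  [1, 4, 7, 5, 4, 2]]

def py : List (List ℤ) := [
  [0, 2, 3, 8, 4, 1],
  [8, 5, 7, 8, 0, 6],
  [4, 3, 1, 4, 3, 8],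
  [8, 3, 4, 1, 5, 8],
  [3, 8, 6, 5, 7, 8],
  [8, 4, 7, 7, 1, 4],
  [8, 8, 5, 1, 6, 4],
  [3, 3, 1, 1, 8, 2],
  [6, 2, 8, 6, 7, 8],
  [3, 8, 1, 4, 1, 0],
  [6, 8, 0, 6, 0, 3]]

def cx (i a : ℕ) : ℤ := (px.getD i []).getD a 0

def cy (i a : ℕ) : ℤ := (py.getD i []).getD a 0

def srcP (i : ℕ) : Fin 6 → ℝ × ℝ := fun a => ((cx i a : ℝ), (cy i a : ℝ))

def DZ (i a b c : ℕ) : ℤ :=
  (cx i b - cx i a) * (cy i c - cy i a) - (cy i b - cy i a) * (cx i c - cx i a)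

def D3Z (i a b c d e f : ℕ) : ℤ :=
  (cy i a - cy i b) * ((cx i d - cx i c) * (cx i e * cy i f - cy i e * cx i f) -
    (cx i c * cy i d - cy i c * cx i d) * (cx i f - cx i e)) -
  (cx i b - cx i a) * ((cy i c - cy i d) * (cx i e * cy i f - cy i e * cx i f) -
    (cx i c * cy i d - cy i c * cx i d) * (cy i e - cy i f)) +
  (cx i a * cy i b - cy i a * cx i b) * ((cy i c - cy i d) * (cx i f - cx i e) -
    (cx i d - cx i c) * (cy i e - cy i f))

theorem D_src (i : ℕ) (a b c : Fin 6) :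
    D (srcP i a) (srcP i b) (srcP i c) = (DZ i a b c : ℝ) := by
  simp [D, srcP, DZ]

theorem D3_src (i : ℕ) (a b c d e f : Fin 6) :
    D3 (srcP i a) (srcP i b) (srcP i c) (srcP i d) (srcP i e) (srcP i f) =
      (D3Z i a b c d e f : ℝ) := by
  simp [D3, srcP, D3Z]

theorem src_D : ∀ i < 11, ∀ a b c : Fin 6, a ≠ b → a ≠ c → b ≠ c → DZ i a b c ≠ 0 := by
  decide +kernel

theorem src_bit : ∀ i < 11, ∀ a b c d : Fin 6, (a ≠ b ∧ c ≠ d ∧ a ≠ c ∧ a ≠ d ∧ b ≠ c ∧ b ≠ d ∧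
    ¬ (0 < DZ i a b c ↔ 0 < DZ i a b d) ∧ ¬ (0 < DZ i c d a ↔ 0 < DZ i c d b)) ↔
      bit (nth codes6 i) a b c d = true := by
  decide +kernel

noncomputable def concOK (i : ℕ) : Bool :=
  allN 6 fun a => allN 6 fun b => allN 6 fun c => allN 6 fun d =>
    !(bit (nth codes6 i) a b c d) || allN 6 fun e => allN 6 fun f =>
      !(bit (nth codes6 i) a b e f) || (!(bit (nth codes6 i) c d e f) ||
        decide (D3Z i a b c d e f ≠ 0))

theorem src_conc : allN 11 concOK = true := by decide +kernel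

theorem src_D' {i : ℕ} (hi : i < 11) (a b c : Fin 6) (h1 : a ≠ b) (h2 : a ≠ c) (h3 : b ≠ c) :
    D (srcP i a) (srcP i b) (srcP i c) ≠ 0 := by
  rw [D_src]
  exact_mod_cast src_D i hi a b c h1 h2 h3

theorem src_cross {i : ℕ} (hi : i < 11) (a b c d : Fin 6) :
    Cross (srcP i) a b c d ↔ bit (nth codes6 i) a b c d = true := by
  rw [cross_iff (src_D' hi), ← src_bit i hi]
  simp only [D_src, Int.cast_pos]

theorem src_gen {i : ℕ} (hi : i < 11) : GenPos (srcP i) := by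
  refine ⟨?_, fun a b c h1 h2 h3 hc => src_D' hi a b c h1 h2 h3 (D_of_collinear hc), ?_⟩
  · intro a b hab
    by_contra hne
    have hex : ∀ a b : Fin 6, ∃ c : Fin 6, a ≠ c ∧ b ≠ c := by decide
    obtain ⟨c, h1, h2⟩ := hex a b
    apply src_D' hi a b c hne h1 h2
    rw [hab]
    simp [D]
  · intro a b c d e f h1 h2 h3
    rw [src_cross hi] at h1 h2 h3
    rw [Set.eq_empty_iff_forall_notMem]
    rintro x ⟨⟨x1, x2⟩, x3⟩
    have h0 := D3_eq_zero x1 x2 x3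
    rw [D3_src] at h0
    have e1 := allN_elim (allN_elim (allN_elim (allN_elim (allN_elim src_conc hi) a.2) b.2) c.2) d.2
    rw [h1, Bool.not_true, Bool.false_or] at e1
    have e2 := allN_elim (allN_elim e1 e.2) f.2
    rw [h2, h3, Bool.not_true, Bool.false_or, Bool.false_or] at e2
    exact (of_decide_eq_true e2) (by exact_mod_cast h0)

theorem src_rep {i : ℕ} (hi : i < 11) : Rep (srcP i) (nth codes6 i) :=
  ⟨Equiv.refl _, fun a b c d => src_cross hi a b c d⟩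

theorem tc6_ok : allN 11 (fun g => tcOK (nth codes6 g)) = true := by decide +kernel

theorem neg6_ok : allN 11 negOK6 = true := by decide +kernel

theorem pos6_ok : allL pos6 posOK6 = true := by decide +kernel

theorem row6_ok : rowOK6 = true := by decide +kernel

theorem lec6 {g h : ℕ} (hg : g < 11) (hh : h < 11) :
    LEc 6 (nth codes6 g) (nth codes6 h) ↔ tb (slot rowT6 g) h = true :=
  lec_iff6 (fun _ h => allN_elim tc6_ok h) (fun _ h => allN_elim neg6_ok h) pos6_ok row6_ok hg hh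

end Pool.Agent.Lib.MP_6e0a1a_co
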